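import Mathlib

/-!
The norm form of `R[T]/(T ^ d + 1)`.
-/

namespace Pool.Agent.Helper13.Lang

open Polynomial

/-- The matrix of multiplication by `T` on `R[T]/(T ^ d + 1)`. -/
def cmp (R : Type*) [CommRing R] (d : ℕ) : Matrix (Fin d) (Fin d) R := fun i j =>
  if (j : ℕ) + 1 = d then (if (i : ℕ) = 0 then -1 else 0) else (if (i : ℕ) = j + 1 then 1 else 0)

/-- The norm form of `R[T]/(T ^ d + 1)` in coordinates. -/
def NF (R : Type*) [CommRing R] (d : ℕ) (c : Fin d → R) : R :=
  (∑ i, c i • (cmp R d) ^ (i : ℕ)).det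

theorem cmp_map {R S : Type*} [CommRing R] [CommRing S] (φ : R →+* S) (d : ℕ) :
    φ.mapMatrix (cmp R d) = cmp S d := by
  ext i j
  simp only [RingHom.mapMatrix_apply, Matrix.map_apply, cmp]
  split_ifs <;> simp

theorem NF_map {R S : Type*} [CommRing R] [CommRing S] (φ : R →+* S) (d : ℕ) (c : Fin d → R) :
    φ (NF R d c) = NF S d (fun i => φ (c i)) := by
  unfold NF
  rw [RingHom.map_det, map_sum]
  congr 1
  apply Finset.sum_congr rfl
  intro i _
  rw [← cmp_map φ d, ← map_pow]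
  ext a b
  simp [RingHom.mapMatrix_apply, Matrix.map_apply, Matrix.smul_apply]

theorem leftMulMatrix_gen {R A : Type*} [CommRing R] [CommRing A] [Algebra R A] {d : ℕ}
    (b : Module.Basis (Fin d) R A) (θ : A) (hb : ∀ j, b j = θ ^ (j : ℕ)) (hθ : θ ^ d = -1) :
    Algebra.leftMulMatrix b θ = cmp R d := by
  ext i j
  rw [Algebra.leftMulMatrix_eq_repr_mul, hb, ← pow_succ']
  unfold cmp
  split_ifs with h1 h2 h3
  · rw [h1, hθ]
    have hd : 0 < d := by omega
    have h0 : (1 : A) = b ⟨0, hd⟩ := by rw [hb]; simp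
    rw [h0, map_neg, Finsupp.neg_apply, b.repr_self, Finsupp.single_apply, if_pos]
    exact Fin.ext h2.symm
  · rw [h1, hθ]
    have hd : 0 < d := by omega
    have h0 : (1 : A) = b ⟨0, hd⟩ := by rw [hb]; simp
    rw [h0, map_neg, Finsupp.neg_apply, b.repr_self, Finsupp.single_apply, if_neg]
    · simp
    · intro h
      exact h2 (congrArg Fin.val h).symm
  · have hd : (j : ℕ) + 1 < d := by omega
    have h0 : θ ^ ((j : ℕ) + 1) = b ⟨j + 1, hd⟩ := by rw [hb]
    rw [h0, b.repr_self, Finsupp.single_apply, if_pos]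
    exact Fin.ext h3.symm
  · have hd : (j : ℕ) + 1 < d := by omega
    have h0 : θ ^ ((j : ℕ) + 1) = b ⟨j + 1, hd⟩ := by rw [hb]
    rw [h0, b.repr_self, Finsupp.single_apply, if_neg]
    intro h
    exact h3 (congrArg Fin.val h).symm

theorem norm_eq_NF {R A : Type*} [CommRing R] [CommRing A] [Algebra R A] {d : ℕ}
    (b : Module.Basis (Fin d) R A) (θ : A) (hb : ∀ j, b j = θ ^ (j : ℕ)) (hθ : θ ^ d = -1)
    (z : A) : Algebra.norm R z = NF R d (fun i => b.repr z i) := by
  rw [Algebra.norm_eq_matrix_det b]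
  unfold NF
  congr 1
  conv_lhs => rw [← b.sum_repr z]
  rw [map_sum]
  apply Finset.sum_congr rfl
  intro i _
  rw [map_smul, hb, map_pow, leftMulMatrix_gen b θ hb hθ]

/-- Every norm from `F[T]/(T ^ d + 1)` is a value of the norm form. -/
theorem exists_NF_adjoinRoot {F : Type*} [Field F] {d : ℕ} (hd : 0 < d)
    (z : AdjoinRoot (X ^ d + 1 : F[X])) : ∃ c : Fin d → F, Algebra.norm F z = NF F d c := by
  have hdeg : (X ^ d + 1 : F[X]).natDegree = d := by
    have := natDegree_X_pow_add_C (n := d) (r := (1 : F))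
    simpa using this
  have hmon : (X ^ d + 1 : F[X]).Monic := by
    have := monic_X_pow_add_C (1 : F) hd.ne'
    simpa using this
  set pb := AdjoinRoot.powerBasis' hmon
  have hdim : pb.dim = d := by
    have : pb.dim = (X ^ d + 1 : F[X]).natDegree := AdjoinRoot.powerBasis'_dim hmon
    rw [this, hdeg]
  have hgen : pb.gen = AdjoinRoot.root (X ^ d + 1 : F[X]) := AdjoinRoot.powerBasis'_gen hmon
  refine ⟨_, norm_eq_NF (pb.basis.reindex (finCongr hdim)) pb.gen ?_ ?_ z⟩
  · intro j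
    rw [Module.Basis.reindex_apply, PowerBasis.basis_eq_pow]
    rfl
  · rw [hgen]
    have h1 := AdjoinRoot.eval₂_root (X ^ d + 1 : F[X])
    rw [eval₂_add, eval₂_pow, eval₂_X, eval₂_one] at h1
    exact eq_neg_of_add_eq_zero_left h1

/-- Every value of the norm form over `ℚ` is a norm from the field of `2 ^ (k + 1)`-th roots
of unity. -/
theorem exists_norm_eq_NF (k : ℕ) (K : Type*) [Field K] [Algebra ℚ K]
    [hK : IsCyclotomicExtension {2 ^ (k + 1)} ℚ K] (c : Fin (2 ^ k) → ℚ) :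
    ∃ z : K, Algebra.norm ℚ z = NF ℚ (2 ^ k) c := by
  have hζ := IsCyclotomicExtension.zeta_spec (2 ^ (k + 1)) ℚ K
  set ζ := IsCyclotomicExtension.zeta (2 ^ (k + 1)) ℚ K
  set pb := hζ.powerBasis ℚ
  have hdim : pb.dim = 2 ^ k := by
    have h1 : pb.dim = Nat.totient (2 ^ (k + 1)) := by
      rw [← IsCyclotomicExtension.finrank K
        (Polynomial.cyclotomic.irreducible_rat (n := 2 ^ (k + 1)) (by positivity))]
      exact (PowerBasis.finrank pb).symm
    rw [h1, Nat.totient_prime_pow_succ Nat.prime_two]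
    simp
  have hgen : pb.gen = ζ := hζ.powerBasis_gen ℚ
  have hhalf : ζ ^ (2 ^ k) = -1 := by
    have h1 : IsPrimitiveRoot (ζ ^ (2 ^ k)) 2 := hζ.pow (by positivity) (by rw [pow_succ])
    exact h1.eq_neg_one_of_two_right
  set b := pb.basis.reindex (finCongr hdim)
  have hb : ∀ j, b j = pb.gen ^ (j : ℕ) := by
    intro j
    rw [Module.Basis.reindex_apply, PowerBasis.basis_eq_pow]
    rfl
  refine ⟨b.equivFun.symm c, ?_⟩
  rw [norm_eq_NF b pb.gen hb (by rw [hgen]; exact hhalf)]
  congr 1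
  ext i
  have := congrFun (b.equivFun.apply_symm_apply c) i
  rw [Module.Basis.equivFun_apply] at this
  exact this

end Pool.Agent.Helper13.Lang
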