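import Pool.Agent.Helper13.Lang.Key

/-!
Heights and the infinite descent.
-/

namespace Pool.Agent.Helper13.Lang

/-- The height of a rational number. -/
def Ht (x : ℚ) : ℕ := max x.num.natAbs x.den

theorem Ht_pos (x : ℚ) : 0 < Ht x := lt_of_lt_of_le x.den_pos (le_max_right _ _)

theorem Ht_quarter (x : ℚ) : Ht (x / 4) ≤ 4 * Ht x := by
  by_cases hx : x = 0
  · subst hx
    simp only [zero_div]
    have := Ht_pos 0
    omega
  have h1 : x / 4 = ((x.num : ℤ) : ℚ) / ((4 * x.den : ℤ) : ℚ) := by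
    conv_lhs => rw [← Rat.num_div_den x]
    push_cast
    rw [div_div, mul_comm]
  have hd : (4 * x.den : ℤ) ≠ 0 := by
    have := x.den_ne_zero
    positivity
  have hn : x.num ≠ 0 := by simpa using hx
  have h2 : (x / 4).num ∣ x.num := by
    rw [h1, ← Rat.divInt_eq_div]; exact Rat.num_dvd _ hd
  have h3 : ((x / 4).den : ℤ) ∣ (4 * x.den : ℤ) := by
    rw [h1, ← Rat.divInt_eq_div]; exact Rat.den_dvd _ _
  have h4 : (x / 4).num.natAbs ≤ x.num.natAbs :=
    Nat.le_of_dvd (by omega) (Int.natAbs_dvd_natAbs.mpr h2)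
  have h5 : (x / 4).den ≤ 4 * x.den := by
    have : (x / 4).den ∣ 4 * x.den := by exact_mod_cast h3
    exact Nat.le_of_dvd (by have := x.den_pos; omega) this
  unfold Ht
  omega

theorem height_bound (a b : ℤ) (hb : b ≠ 0) :
    ∃ C : ℕ, ∀ x x' : ℚ, x' ≠ 0 → x' + b / x' = 4 * x + 2 * a → Ht x' ^ 2 ≤ C * Ht x := by
  refine ⟨b.natAbs * (4 + 2 * a.natAbs) + b.natAbs ^ 2 + b.natAbs, fun x x' hx' h => ?_⟩
  set p := x'.num with hp
  set q := x'.den with hq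
  set m := x.num with hm
  set n := x.den with hn
  have hp0 : p ≠ 0 := Rat.num_ne_zero.mpr hx'
  have hq0 : (q : ℤ) ≠ 0 := by exact_mod_cast x'.den_ne_zero
  have hn0 : (n : ℤ) ≠ 0 := by exact_mod_cast x.den_ne_zero
  have hqpos : 0 < (q : ℤ) := by exact_mod_cast x'.den_pos
  have hnpos : 0 < (n : ℤ) := by exact_mod_cast x.den_pos
  have hcop : IsCoprime p (q : ℤ) := by
    rw [Int.isCoprime_iff_gcd_eq_one]
    exact x'.reduced
  have hrel : (p ^ 2 + b * q ^ 2) * n = (4 * m + 2 * a * n) * (p * q) := by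
    have h1 : x' = p / q := (Rat.num_div_den x').symm
    have h2 : x = m / n := (Rat.num_div_den x).symm
    have hq0' : (q : ℚ) ≠ 0 := by exact_mod_cast hq0
    have hn0' : (n : ℚ) ≠ 0 := by exact_mod_cast hn0
    have hp0' : (p : ℚ) ≠ 0 := by exact_mod_cast hp0
    rw [h1, h2] at h
    have h3 : (((p ^ 2 + b * q ^ 2) * n : ℤ) : ℚ) = (((4 * m + 2 * a * n) * (p * q) : ℤ) : ℚ) := by
      push_cast
      field_simp at h
      linear_combination h
    exact_mod_cast h3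
  -- divisibilities
  have hpq : p * q ∣ n * b := by
    apply IsCoprime.mul_dvd hcop
    · have h1 : p ∣ b * q ^ 2 * n := by
        have : b * q ^ 2 * n = (4 * m + 2 * a * n) * (p * q) - p ^ 2 * n := by
          linear_combination hrel
        rw [this]
        exact dvd_sub (Dvd.dvd.mul_left (dvd_mul_right _ _) _) (Dvd.dvd.mul_right (dvd_pow_self _ two_ne_zero) _)
      have h2 : p ∣ (n * b) * q ^ 2 := by
        have : (n * b) * q ^ 2 = b * q ^ 2 * n := by ring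
        rw [this]; exact h1
      exact (hcop.pow_right).dvd_of_dvd_mul_right h2
    · have h1 : (q : ℤ) ∣ n * p ^ 2 := by
        have : (n : ℤ) * p ^ 2 = (4 * m + 2 * a * n) * (p * q) - b * q ^ 2 * n := by
          linear_combination hrel
        rw [this]
        exact dvd_sub (Dvd.dvd.mul_left (dvd_mul_left _ _) _)
          (Dvd.dvd.mul_right (Dvd.dvd.mul_left (dvd_pow_self _ two_ne_zero) _) _)
      exact Dvd.dvd.mul_right ((hcop.symm.pow_right).dvd_of_dvd_mul_right h1) _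
  obtain ⟨c, hc⟩ := hpq
  have hc0 : c ≠ 0 := by
    rintro rfl
    rw [mul_zero] at hc
    exact (mul_ne_zero hn0 hb) hc
  have hc1 : 1 ≤ |c| := Int.one_le_abs hc0
  have hsum : c * (p ^ 2 + b * q ^ 2) = (4 * m + 2 * a * n) * b := by
    have h1 : (n : ℤ) * (c * (p ^ 2 + b * q ^ 2)) = n * ((4 * m + 2 * a * n) * b) := by
      linear_combination c * hrel - (4 * m + 2 * a * n) * hc
    exact mul_left_cancel₀ hn0 h1
  -- sizes
  set H : ℤ := (Ht x : ℤ) with hH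
  have hmH : |m| ≤ H := by
    rw [hH]
    have : m.natAbs ≤ Ht x := le_max_left _ _
    rw [Int.abs_eq_natAbs]
    exact_mod_cast this
  have hnH : (n : ℤ) ≤ H := by
    rw [hH]
    have : n ≤ Ht x := le_max_right _ _
    exact_mod_cast this
  have hHpos : 0 < H := lt_of_lt_of_le hnpos hnH
  have hA : |4 * m + 2 * a * n| ≤ (4 + 2 * |a|) * H := by
    have h1 := abs_add_le (4 * m) (2 * a * n)
    have h2 : |4 * m| = 4 * |m| := by rw [abs_mul]; norm_num
    have h3 : |2 * a * n| = 2 * |a| * n := by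
      rw [abs_mul, abs_mul, abs_of_pos hnpos]; norm_num
    have h4 : 2 * |a| * n ≤ 2 * |a| * H := by gcongr
    linarith
  have hS : |p ^ 2 + b * q ^ 2| ≤ |b| * ((4 + 2 * |a|) * H) := by
    have h1 : |c| * |p ^ 2 + b * q ^ 2| = |4 * m + 2 * a * n| * |b| := by
      rw [← abs_mul, ← abs_mul, hsum]
    have h2 : |p ^ 2 + b * q ^ 2| ≤ |c| * |p ^ 2 + b * q ^ 2| :=
      le_mul_of_one_le_left (abs_nonneg _) hc1
    calc |p ^ 2 + b * q ^ 2| ≤ |4 * m + 2 * a * n| * |b| := by rw [← h1]; exact h2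
      _ ≤ ((4 + 2 * |a|) * H) * |b| := by gcongr
      _ = _ := by ring
  have hP : |p| * q ≤ |b| * H := by
    have h1 : n * |b| = |p| * q * |c| := by
      have := congrArg abs hc
      rw [abs_mul, abs_mul, abs_mul, abs_of_pos hnpos, abs_of_pos hqpos] at this
      exact this
    have h2 : |p| * q ≤ |p| * q * |c| := le_mul_of_one_le_right (by positivity) hc1
    have h3 : n * |b| ≤ H * |b| := by gcongr
    linarith
  have hb1 : 1 ≤ |b| := Int.one_le_abs hb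
  have hp2 : |p| ^ 2 = p ^ 2 := sq_abs p
  have habs1 := abs_le.mp hS
  have hbabs : -|b| ≤ b ∧ b ≤ |b| := ⟨neg_abs_le b, le_abs_self b⟩
  have hq2 : (0 : ℤ) ≤ (q : ℤ) ^ 2 := by positivity
  have key : p ^ 2 ≤ (|b| * (4 + 2 * |a|) + |b| ^ 2 + |b|) * H ∧
      (q : ℤ) ^ 2 ≤ (|b| * (4 + 2 * |a|) + |b| ^ 2 + |b|) * H := by
    rcases le_or_gt (q : ℤ) |p| with hle | hlt
    · have h1 : (q : ℤ) ^ 2 ≤ |b| * H := by
        calc (q : ℤ) ^ 2 = q * q := sq _
          _ ≤ |p| * q := by gcongr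
          _ ≤ _ := hP
      have h2 : |b| * (q : ℤ) ^ 2 ≤ |b| * (|b| * H) := by gcongr
      have h3 : -(|b| * (q : ℤ) ^ 2) ≤ b * q ^ 2 := by nlinarith
      have h4 : p ^ 2 ≤ |b| * ((4 + 2 * |a|) * H) + |b| * (|b| * H) := by linarith
      have h5 : 0 ≤ |b| * H := by positivity
      have h6 : 0 ≤ |b| * ((4 + 2 * |a|) * H) := by positivity
      have h7 : 0 ≤ |b| * (|b| * H) := by positivity
      constructor <;> nlinarith
    · have h1 : p ^ 2 ≤ |b| * H := by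
        calc p ^ 2 = |p| * |p| := by rw [← hp2, sq]
          _ ≤ |p| * q := by gcongr
          _ ≤ _ := hP
      have h2 : |b| * (q : ℤ) ^ 2 ≤ |b| * ((4 + 2 * |a|) * H) + |b| * H := by
        rcases abs_cases b with ⟨h, h'⟩ | ⟨h, h'⟩
        · rw [h] at habs1 h1 ⊢
          nlinarith [sq_nonneg p]
        · rw [h] at habs1 h1 ⊢
          nlinarith [sq_nonneg p]
      have h3 : (q : ℤ) ^ 2 ≤ |b| * (q : ℤ) ^ 2 := le_mul_of_one_le_left hq2 hb1
      have h5 : 0 ≤ |b| * H := by positivity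
      have h6 : 0 ≤ |b| * ((4 + 2 * |a|) * H) := by positivity
      have h7 : 0 ≤ |b| * (|b| * H) := by positivity
      constructor <;> nlinarith
  have hfin : ((Ht x' : ℕ) : ℤ) ^ 2 ≤ (|b| * (4 + 2 * |a|) + |b| ^ 2 + |b|) * H := by
    unfold Ht
    rcases max_choice x'.num.natAbs x'.den with h1 | h1
    · rw [h1, ← Int.abs_eq_natAbs, ← hp, hp2]; exact key.1
    · rw [h1, ← hq]; exact key.2
  have : ((Ht x' ^ 2 : ℕ) : ℤ) ≤ (((b.natAbs * (4 + 2 * a.natAbs) + b.natAbs ^ 2 + b.natAbs) * Ht x : ℕ) : ℤ) := by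
    push_cast
    exact hfin
  exact_mod_cast this

theorem swap {a b : ℤ} {x g : ℚ} (hx : x ≠ 0) (h : g ^ 2 * x = x ^ 2 + a * x + b) :
    g ^ 2 * (b / x) = (b / x) ^ 2 + a * (b / x) + b := by
  field_simp
  linear_combination b * h

theorem neg_or {r : ℕ} [Fact r.Prime] {a b : ℤ} (hb : b ≠ 0) (hrb : ¬ (r : ℤ) ∣ b) {x g : ℚ}
    (hx : x ≠ 0) (hg : g ≠ 0)
    (h : g ^ 2 * x = x ^ 2 + a * x + b) (hneg : padicValRat r g < 0) :
    padicValRat r x < 0 ∨ padicValRat r (b / x) < 0 := by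
  by_cases hv : padicValRat r x < 0
  · left; exact hv
  right
  rw [not_lt] at hv
  have hb0 : (b : ℚ) ≠ 0 := by exact_mod_cast hb
  have hvb : padicValRat r (b : ℚ) = 0 := by
    rw [padicValRat.of_int, padicValInt.eq_zero_of_not_dvd hrb]; rfl
  have hx' : VGe r 0 x := Or.inr hv
  have h1 : VGe r 0 (x ^ 2 + a * x + b) := by
    have e1 : VGe r 0 (x ^ 2) := by
      rw [sq]; simpa using hx'.mul hx'
    have e2 : VGe r 0 ((a : ℚ) * x) := by simpa using (VGe.int r a).mul hx'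
    exact (e1.add e2).add (VGe.int r b)
  rw [← h] at h1
  rcases h1 with h1 | h1
  · exact absurd h1 (mul_ne_zero (pow_ne_zero 2 hg) hx)
  · rw [padicValRat.mul (pow_ne_zero 2 hg) hx, padicValRat.pow] at h1
    push_cast at h1
    rw [padicValRat.div hb0 hx, hvb]
    omega

/-- One step of the descent. -/
theorem step (a b : ℤ) (hb : b ≠ 0) (hb' : a ^ 2 - 4 * b ≠ 0) (r : ℕ) (hr : r.Prime) (hr2 : r ≠ 2)
    (hrb : ¬ (r : ℤ) ∣ b) (hrb' : ¬ (r : ℤ) ∣ a ^ 2 - 4 * b) :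
    ∃ J C : ℕ, ∀ i ≥ J, ∀ x g : ℚ, Anch i r a b x g →
      ∃ x1 g1 : ℚ, Anch i r (-2 * a) (a ^ 2 - 4 * b) x1 g1 ∧ Ht x1 ^ 2 ≤ C * Ht x := by
  obtain ⟨J, hJ⟩ := key a b hb r hr hr2 hrb
  obtain ⟨C, hC⟩ := height_bound a (a ^ 2 - 4 * b) hb'
  refine ⟨J, C, fun i hi x g hA => ?_⟩
  have := Fact.mk hr
  obtain ⟨h, hxh, hgdh, hvrh⟩ := hJ i hi x g hA
  have hx := hA.hx
  have hh0 : h ≠ 0 := by rintro rfl; apply hx; rw [hxh]; ring
  have hvg : padicValRat r g < 0 := by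
    have := val_neg hA.hx hA.hg hA.eq hA.neg
    have := hA.neg
    omega
  have hb'q : ((a ^ 2 - 4 * b : ℤ) : ℚ) ≠ 0 := by exact_mod_cast hb'
  set x' := 2 * h ^ 2 + a - 2 * g * h with hx'
  set z' := 2 * h ^ 2 + a + 2 * g * h with hz'
  have hprod : x' * z' = ((a ^ 2 - 4 * b : ℤ) : ℚ) := by
    have := hA.eq
    rw [hxh] at this
    rw [hx', hz']
    push_cast
    linear_combination (-4) * this
  have hx'0 : x' ≠ 0 := by rintro h0; rw [h0, zero_mul] at hprod; exact hb'q hprod.symm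
  have hz : z' = ((a ^ 2 - 4 * b : ℤ) : ℚ) / x' := by
    rw [← hprod]; field_simp
  have hsum : x' + ((a ^ 2 - 4 * b : ℤ) : ℚ) / x' = 4 * x + 2 * a := by
    rw [← hz, hxh, hx', hz']; ring
  have heq' : (2 * h) ^ 2 * x' = x' ^ 2 + ((-2 * a : ℤ) : ℚ) * x' + ((a ^ 2 - 4 * b : ℤ) : ℚ) := by
    rw [← hprod]
    have : z' = 4 * h ^ 2 + 2 * a - x' := by rw [hz', hx']; ring
    rw [this]
    push_cast
    ring
  have hg1 : (2 * h : ℚ) ≠ 0 := mul_ne_zero two_ne_zero hh0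
  have hv2h : ∀ l : ℕ, l.Prime → l ≠ 2 → padicValRat l (2 * h) = padicValRat l h := by
    intro l hl hl2
    have := Fact.mk hl
    have h1 := padicValRat.of_nat (p := l) (n := 2)
    rw [padicValNat.eq_zero_of_not_dvd
      (fun h => hl2 ((Nat.prime_dvd_prime_iff_eq hl Nat.prime_two).mp h))] at h1
    have h2 : padicValRat l (2 : ℚ) = 0 := by exact_mod_cast h1
    rw [padicValRat.mul two_ne_zero hh0, h2, zero_add]
  have hgd1 : Gd i r (2 * h) := by
    intro l hl hl2 hlr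
    rw [hv2h l hl hl2]
    exact hgdh l hl hl2 hlr
  have hvr1 : padicValRat r (2 * h) = padicValRat r g := by rw [hv2h r hr hr2, hvrh]
  have hgr1 : (r : ZMod (2 ^ i)) ^ (2 * (padicValRat r (2 * h) - 1).natAbs) = 1 := by
    rw [hvr1]; exact hA.gr
  rcases neg_or hb' hrb' hx'0 hg1 heq' (by rw [hvr1]; exact hvg) with hn | hn
  · exact ⟨x', 2 * h, ⟨hx'0, hg1, heq', hgd1, hgr1, hn⟩, hC x x' hx'0 hsum⟩
  · have hne : ((a ^ 2 - 4 * b : ℤ) : ℚ) / x' ≠ 0 := div_ne_zero hb'q hx'0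
    refine ⟨((a ^ 2 - 4 * b : ℤ) : ℚ) / x', 2 * h, ⟨hne, hg1, swap hx'0 heq', hgd1, hgr1, hn⟩,
      hC x _ hne ?_⟩
    rw [div_div_cancel₀ hb'q, add_comm]
    exact hsum

theorem rescale {i r : ℕ} (hr : r.Prime) (hr2 : r ≠ 2) {a b : ℤ} {x g : ℚ}
    (hA : Anch i r (4 * a) (16 * b) x g) : Anch i r a b (x / 4) (g / 2) := by
  have := Fact.mk hr
  have val2 : ∀ l : ℕ, l.Prime → l ≠ 2 → padicValRat l (2 : ℚ) = 0 := by
    intro l hl hl2
    have := Fact.mk hl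
    have h1 := padicValRat.of_nat (p := l) (n := 2)
    rw [padicValNat.eq_zero_of_not_dvd (fun h => hl2 ((Nat.prime_dvd_prime_iff_eq hl Nat.prime_two).mp h))] at h1
    exact_mod_cast h1
  have hv2 : ∀ l : ℕ, l.Prime → l ≠ 2 → padicValRat l (g / 2) = padicValRat l g := by
    intro l hl hl2
    have := Fact.mk hl
    rw [padicValRat.div hA.hg two_ne_zero, val2 l hl hl2, sub_zero]
  refine ⟨div_ne_zero hA.hx (by norm_num), div_ne_zero hA.hg two_ne_zero, ?_, ?_, ?_, ?_⟩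
  · have := hA.eq
    push_cast at this
    linear_combination (1 / 16 : ℚ) * this
  · intro l hl hl2 hlr
    rw [hv2 l hl hl2]
    exact hA.gd l hl hl2 hlr
  · rw [hv2 r hr hr2]
    exact hA.gr
  · have h4 : padicValRat r (4 : ℚ) = 0 := by
      have : (4 : ℚ) = 2 ^ 2 := by norm_num
      rw [this, padicValRat.pow, val2 r hr hr2]; simp
    rw [padicValRat.div hA.hx (by norm_num), h4, sub_zero]
    exact hA.neg

theorem Ht_lower {i r : ℕ} (hr : r.Prime) {a b : ℤ} {x g : ℚ} (hA : Anch i r a b x g) :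
    2 ^ i < Ht x ^ 2 := by
  have := Fact.mk hr
  have hvx := val_neg hA.hx hA.hg hA.eq hA.neg
  have hneg := hA.neg
  obtain ⟨t, ht⟩ : ∃ t : ℕ, padicValRat r g = -((t : ℤ) + 1) := ⟨(-padicValRat r g - 1).toNat, by omega⟩
  have hgr := hA.gr
  have h1 : (padicValRat r g - 1).natAbs = t + 2 := by rw [ht]; omega
  rw [h1] at hgr
  have hden : padicValNat r x.den = 2 * (t + 1) := by
    have h2 : padicValInt r x.num = 0 := val_neg_num hneg
    rw [padicValRat_def, h2, ht, Nat.cast_zero, zero_sub] at hvx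
    omega
  have hdvd : r ^ (2 * (t + 1)) ∣ x.den := by
    rw [← hden]; exact pow_padicValNat_dvd
  have hle : r ^ (2 * (t + 1)) ≤ Ht x :=
    (Nat.le_of_dvd x.den_pos hdvd).trans (le_max_right _ _)
  have h3 : (2 ^ i : ℕ) ∣ r ^ (2 * (t + 2)) - 1 := by
    have h4 : ((r ^ (2 * (t + 2)) - 1 : ℕ) : ZMod (2 ^ i)) = 0 := by
      rw [Nat.cast_sub (Nat.one_le_pow _ _ hr.pos)]
      push_cast
      rw [hgr]; ring
    exact (ZMod.natCast_eq_zero_iff _ _).mp h4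
  have h5 : 1 < r ^ (2 * (t + 2)) := Nat.one_lt_pow (by omega) hr.one_lt
  have h6 : 2 ^ i ≤ r ^ (2 * (t + 2)) - 1 := Nat.le_of_dvd (by omega) h3
  have h7 : r ^ (2 * (t + 2)) ≤ (r ^ (2 * (t + 1))) ^ 2 := by
    rw [← pow_mul]
    exact Nat.pow_le_pow_right hr.pos (by omega)
  have h8 : (r ^ (2 * (t + 1))) ^ 2 ≤ Ht x ^ 2 := Nat.pow_le_pow_left hle 2
  omega

/-- There are no anchored points. -/
theorem no_anch (a b : ℤ) (hb : b ≠ 0) (hb' : a ^ 2 - 4 * b ≠ 0) (r : ℕ) (hr : r.Prime)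
    (hr2 : r ≠ 2) (hrb : ¬ (r : ℤ) ∣ b) (hrb' : ¬ (r : ℤ) ∣ a ^ 2 - 4 * b) :
    ∃ J : ℕ, ∀ i ≥ J, ∀ x g : ℚ, ¬ Anch i r a b x g := by
  obtain ⟨J1, C1, h1⟩ := step a b hb hb' r hr hr2 hrb hrb'
  have e16 : (-2 * a) ^ 2 - 4 * (a ^ 2 - 4 * b) = 16 * b := by ring
  have hr16 : ¬ (r : ℤ) ∣ 16 * b := by
    intro h
    have hrp : Prime (r : ℤ) := Nat.prime_iff_prime_int.mp hr
    rcases hrp.dvd_or_dvd h with h | h
    · have h3 : (r : ℤ) ∣ 2 ^ 4 := by norm_num; exact h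
      have h4 : (r : ℤ) ∣ 2 := hrp.dvd_of_dvd_pow h3
      have h5 : r ∣ 2 := by exact_mod_cast h4
      exact hr2 ((Nat.prime_dvd_prime_iff_eq hr Nat.prime_two).mp h5)
    · exact hrb h
  obtain ⟨J2, C2, h2⟩ := step (-2 * a) (a ^ 2 - 4 * b) hb' (by rw [e16]; simpa using hb) r hr hr2
    hrb' (by rw [e16]; exact hr16)
  obtain ⟨J3, hJ3⟩ := exists_two_pow_gt (256 * (C2 ^ 2 * C1))
  refine ⟨max J1 (max J2 J3), fun i hi => ?_⟩
  have hi1 : J1 ≤ i := le_trans (le_max_left _ _) hi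
  have hi2 : J2 ≤ i := le_trans (le_trans (le_max_left _ _) (le_max_right _ _)) hi
  have hi3 : J3 ≤ i := le_trans (le_trans (le_max_right _ _) (le_max_right _ _)) hi
  have hC : 256 * (C2 ^ 2 * C1) < 2 ^ i := by
    have e1 : (256 * (C2 ^ 2 * C1)) < 2 ^ J3 := by exact_mod_cast hJ3
    exact lt_of_lt_of_le e1 (Nat.pow_le_pow_right (by norm_num) hi3)
  have main : ∀ n : ℕ, ∀ x g : ℚ, Ht x = n → ¬ Anch i r a b x g := by
    intro n
    induction n using Nat.strong_induction_on with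
    | _ n ih =>
      intro x g hn hA
      obtain ⟨x1, g1, hA1, hH1⟩ := h1 i hi1 x g hA
      obtain ⟨x2, g2, hA2, hH2⟩ := h2 i hi2 x1 g1 hA1
      have e2 : -2 * (-2 * a) = 4 * a := by ring
      rw [e16, e2] at hA2
      have hA3 := rescale hr hr2 hA2
      have hH3 := Ht_quarter x2
      have hlow := Ht_lower hr hA3
      refine ih (Ht (x2 / 4)) ?_ (x2 / 4) (g2 / 2) rfl hA3
      rw [← hn]
      by_contra hcon
      rw [not_lt] at hcon
      set X := Ht (x2 / 4) with hX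
      have hXpos : 0 < X := Ht_pos _
      have e3 : X ^ 4 ≤ 256 * (C2 ^ 2 * C1) * X := by
        have f1 : X ^ 4 ≤ (4 * Ht x2) ^ 4 := Nat.pow_le_pow_left hH3 4
        have f2 : (Ht x2 ^ 2) ^ 2 ≤ (C2 * Ht x1) ^ 2 := Nat.pow_le_pow_left hH2 2
        have f3 : C2 ^ 2 * Ht x1 ^ 2 ≤ C2 ^ 2 * (C1 * Ht x) := Nat.mul_le_mul_left _ hH1
        calc X ^ 4 ≤ (4 * Ht x2) ^ 4 := f1
          _ = 256 * (Ht x2 ^ 2) ^ 2 := by ring
          _ ≤ 256 * (C2 * Ht x1) ^ 2 := Nat.mul_le_mul_left _ f2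
          _ = 256 * (C2 ^ 2 * Ht x1 ^ 2) := by ring
          _ ≤ 256 * (C2 ^ 2 * (C1 * Ht x)) := Nat.mul_le_mul_left _ f3
          _ = 256 * (C2 ^ 2 * C1) * Ht x := by ring
          _ ≤ 256 * (C2 ^ 2 * C1) * X := Nat.mul_le_mul_left _ hcon
      have e4 : X ^ 3 ≤ 256 * (C2 ^ 2 * C1) := by
        have : X ^ 3 * X ≤ 256 * (C2 ^ 2 * C1) * X := by rw [← pow_succ]; exact e3
        exact Nat.le_of_mul_le_mul_right this hXpos
      have e5 : X ^ 2 ≤ X ^ 3 := Nat.pow_le_pow_right hXpos (by norm_num)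
      omega
  exact fun x g => main (Ht x) x g rfl

end Pool.Agent.Helper13.Lang
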