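import Mathlib

/-!
Two integer statements: the exactness argument for the `2`-adic analysis of the descent.
-/

namespace Pool.Agent.Helper13.Lang

theorem eq_zero_of_dvd_of_abs_lt {m n : ℤ} (h : m ∣ n) (h2 : |n| < m) : n = 0 := by
  by_contra hn
  have := Int.le_of_dvd (abs_pos.mpr hn) ((dvd_abs m n).mpr h)
  omega

theorem exists_two_pow_gt (n : ℕ) : ∃ J : ℕ, (n : ℤ) < 2 ^ J :=
  ⟨n, by exact_mod_cast Nat.lt_two_pow_self⟩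

theorem abs_term1 {B κ σ : ℤ} (hκ : 0 < κ) (hκB : κ ≤ B) (hσ : σ = 1 ∨ σ = -1) (e r : ℕ) :
    |σ * 2 ^ e * κ * (r : ℤ) ^ 4| ≤ 2 ^ e * B * (r : ℤ) ^ 4 := by
  have hσ1 : |σ| = 1 := by rcases hσ with h | h <;> rw [h] <;> norm_num
  rw [abs_mul, abs_mul, abs_mul, hσ1, abs_of_pos hκ, abs_of_nonneg (show (0 : ℤ) ≤ 2 ^ e by positivity),
    abs_of_nonneg (show (0 : ℤ) ≤ (r : ℤ) ^ 4 by positivity), one_mul]
  gcongr

theorem abs_term2 {a b B κ σ : ℤ} (hκ : 0 < κ) (hκB : κ ≤ B) (hb : |b| ≤ B) (hσ : σ = 1 ∨ σ = -1)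
    (v r : ℕ) :
    |4 ^ v * κ ^ 2 * (r : ℤ) ^ 4 + a * σ * 2 ^ v * κ * (r : ℤ) ^ 2 + b| ≤
      4 ^ v * B ^ 2 * (r : ℤ) ^ 4 + |a| * 2 ^ v * B * (r : ℤ) ^ 2 + B := by
  have hσ1 : |σ| = 1 := by rcases hσ with h | h <;> rw [h] <;> norm_num
  have h1 : |4 ^ v * κ ^ 2 * (r : ℤ) ^ 4| ≤ 4 ^ v * B ^ 2 * (r : ℤ) ^ 4 := by
    rw [abs_of_nonneg (by positivity)]
    gcongr
  have h2 : |a * σ * 2 ^ v * κ * (r : ℤ) ^ 2| ≤ |a| * 2 ^ v * B * (r : ℤ) ^ 2 := by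
    rw [abs_mul, abs_mul, abs_mul, abs_mul, hσ1, abs_of_pos hκ,
      abs_of_nonneg (show (0 : ℤ) ≤ 2 ^ v by positivity),
      abs_of_nonneg (show (0 : ℤ) ≤ (r : ℤ) ^ 2 by positivity), mul_one]
    gcongr
  calc _ ≤ |4 ^ v * κ ^ 2 * (r : ℤ) ^ 4 + a * σ * 2 ^ v * κ * (r : ℤ) ^ 2| + |b| := abs_add_le _ _
    _ ≤ |4 ^ v * κ ^ 2 * (r : ℤ) ^ 4| + |a * σ * 2 ^ v * κ * (r : ℤ) ^ 2| + |b| := by
        gcongr; exact abs_add_le _ _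
    _ ≤ _ := by gcongr

theorem exactA (a b : ℤ) (hb : b ≠ 0) (r : ℕ) (hr : r.Prime) (hrb : ¬ (r : ℤ) ∣ b) :
    ∃ J : ℕ, ∀ j ≥ J, ∀ κ : ℤ, 0 < κ → κ ∣ b → ∀ σ : ℤ, (σ = 1 ∨ σ = -1) → ∀ v e : ℕ,
      ¬ (2 : ℤ) ^ j ∣ σ * 2 ^ e * κ * r ^ 4 -
        (4 ^ v * κ ^ 2 * r ^ 4 + a * σ * 2 ^ v * κ * r ^ 2 + b) := by
  set B : ℕ := b.natAbs with hB
  have hBb : (B : ℤ) = |b| := by simp [hB]
  obtain ⟨V, hV⟩ := exists_two_pow_gt (B ^ 2 * r ^ 4 + B)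
  obtain ⟨V', hV'⟩ := exists_two_pow_gt (4 ^ V * B ^ 2 * r ^ 4 + a.natAbs * 2 ^ V * B * r ^ 2 + B)
  obtain ⟨J, hJ⟩ := exists_two_pow_gt
    (2 ^ V' * B * r ^ 4 + (4 ^ V * B ^ 2 * r ^ 4 + a.natAbs * 2 ^ V * B * r ^ 2 + B))
  refine ⟨max J (max V V'), fun j hj κ hκ hκb σ hσ v e hdvd => ?_⟩
  have hjJ : J ≤ j := le_trans (le_max_left _ _) hj
  have hjV : V ≤ j := le_trans (le_trans (le_max_left _ _) (le_max_right _ _)) hj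
  have hjV' : V' ≤ j := le_trans (le_trans (le_max_right _ _) (le_max_right _ _)) hj
  have hκB : κ ≤ B := by
    rw [hBb]; exact Int.le_of_dvd (abs_pos.mpr hb) ((dvd_abs κ b).mpr hκb)
  have hBpos : (0 : ℤ) < B := by rw [hBb]; exact abs_pos.mpr hb
  have hrpos : (0 : ℤ) < r := by exact_mod_cast hr.pos
  have hnat : (a.natAbs : ℤ) = |a| := by simp
  push_cast at hV hV' hJ
  -- divisibility by `r`
  have hr1 : (r : ℤ) ∣ σ * 2 ^ e * κ * r ^ 4 := Dvd.dvd.mul_left (dvd_pow_self _ (by norm_num)) _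
  have hr2 : (r : ℤ) ∣ 4 ^ v * κ ^ 2 * r ^ 4 := Dvd.dvd.mul_left (dvd_pow_self _ (by norm_num)) _
  have hr3 : (r : ℤ) ∣ a * σ * 2 ^ v * κ * r ^ 2 := Dvd.dvd.mul_left (dvd_pow_self _ (by norm_num)) _
  have hR0 : 4 ^ v * κ ^ 2 * (r : ℤ) ^ 4 + a * σ * 2 ^ v * κ * r ^ 2 + b ≠ 0 := by
    intro h0
    apply hrb
    have : b = -(4 ^ v * κ ^ 2 * (r : ℤ) ^ 4) - a * σ * 2 ^ v * κ * r ^ 2 := by linarith
    rw [this]
    exact dvd_sub (dvd_neg.mpr hr2) hr3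
  have hE0 : σ * 2 ^ e * κ * (r : ℤ) ^ 4 -
        (4 ^ v * κ ^ 2 * r ^ 4 + a * σ * 2 ^ v * κ * r ^ 2 + b) ≠ 0 := by
    intro h0
    apply hrb
    have : b = σ * 2 ^ e * κ * (r : ℤ) ^ 4 - 4 ^ v * κ ^ 2 * (r : ℤ) ^ 4 -
      a * σ * 2 ^ v * κ * r ^ 2 := by linarith
    rw [this]
    exact dvd_sub (dvd_sub hr1 hr2) hr3
  have hF0 : σ * 2 ^ e * κ * (r : ℤ) ^ 4 - b ≠ 0 := by
    intro h0
    apply hrb
    have : b = σ * 2 ^ e * κ * (r : ℤ) ^ 4 := by linarith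
    rw [this]
    exact hr1
  have habs1 := abs_term1 (σ := σ) hκ hκB hσ e r
  have habs2 := abs_term2 (a := a) (b := b) hκ hκB hBb.ge hσ v r
  rcases lt_or_ge v V with hv | hv
  · -- `v < V`
    have hR : |4 ^ v * κ ^ 2 * (r : ℤ) ^ 4 + a * σ * 2 ^ v * κ * r ^ 2 + b| ≤
        4 ^ V * B ^ 2 * (r : ℤ) ^ 4 + |a| * 2 ^ V * B * (r : ℤ) ^ 2 + B := by
      refine le_trans habs2 ?_
      have h4 : (4 : ℤ) ^ v ≤ 4 ^ V := pow_le_pow_right₀ (by norm_num) hv.le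
      have h2 : (2 : ℤ) ^ v ≤ 2 ^ V := pow_le_pow_right₀ (by norm_num) hv.le
      gcongr
    rcases lt_or_ge e V' with he | he
    · apply hE0
      apply eq_zero_of_dvd_of_abs_lt hdvd
      have h2 : (2 : ℤ) ^ e ≤ 2 ^ V' := pow_le_pow_right₀ (by norm_num) he.le
      have h3 : (2 : ℤ) ^ e * B * (r : ℤ) ^ 4 ≤ 2 ^ V' * B * (r : ℤ) ^ 4 := by gcongr
      have h4 : (2 : ℤ) ^ J ≤ 2 ^ j := pow_le_pow_right₀ (by norm_num) hjJ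
      have h5 := abs_sub (σ * 2 ^ e * κ * (r : ℤ) ^ 4)
        (4 ^ v * κ ^ 2 * r ^ 4 + a * σ * 2 ^ v * κ * r ^ 2 + b)
      linarith
    · apply hR0
      have h1 : (2 : ℤ) ^ V' ∣ σ * 2 ^ e * κ * r ^ 4 := by
        have : (2 : ℤ) ^ V' ∣ 2 ^ e := pow_dvd_pow 2 he
        exact Dvd.dvd.mul_right (Dvd.dvd.mul_right (Dvd.dvd.mul_left this _) _) _
      have h2 : (2 : ℤ) ^ V' ∣ 4 ^ v * κ ^ 2 * (r : ℤ) ^ 4 + a * σ * 2 ^ v * κ * r ^ 2 + b :=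
        (dvd_sub_right h1).mp ((pow_dvd_pow 2 hjV').trans hdvd)
      apply eq_zero_of_dvd_of_abs_lt h2
      linarith
  · have h2V : (2 : ℤ) ^ V ∣ 2 ^ v := pow_dvd_pow 2 hv
    have h4V : (2 : ℤ) ^ V ∣ 4 ^ v := by
      have : (4 : ℤ) ^ v = 2 ^ v * 2 ^ v := by rw [← mul_pow]; norm_num
      rw [this]; exact Dvd.dvd.mul_right h2V _
    have hd1 : (2 : ℤ) ^ V ∣ 4 ^ v * κ ^ 2 * (r : ℤ) ^ 4 :=
      Dvd.dvd.mul_right (Dvd.dvd.mul_right h4V _) _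
    have hd2 : (2 : ℤ) ^ V ∣ a * σ * 2 ^ v * κ * r ^ 2 :=
      Dvd.dvd.mul_right (Dvd.dvd.mul_right (Dvd.dvd.mul_left h2V _) _) _
    have hF : (2 : ℤ) ^ V ∣ σ * 2 ^ e * κ * (r : ℤ) ^ 4 - b := by
      have : σ * 2 ^ e * κ * (r : ℤ) ^ 4 - b = (σ * 2 ^ e * κ * (r : ℤ) ^ 4 -
        (4 ^ v * κ ^ 2 * r ^ 4 + a * σ * 2 ^ v * κ * r ^ 2 + b)) +
        (4 ^ v * κ ^ 2 * (r : ℤ) ^ 4 + a * σ * 2 ^ v * κ * r ^ 2) := by ring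
      rw [this]
      exact dvd_add ((pow_dvd_pow 2 hjV).trans hdvd) (dvd_add hd1 hd2)
    have hBV : (B : ℤ) < 2 ^ V := by
      have : (0 : ℤ) ≤ (B : ℤ) ^ 2 * (r : ℤ) ^ 4 := by positivity
      linarith
    rcases lt_or_ge e V with he | he
    · have he2 : (2 : ℤ) ^ e ∣ b := by
        have h1 : (2 : ℤ) ^ e ∣ σ * 2 ^ e * κ * r ^ 4 :=
          Dvd.dvd.mul_right (Dvd.dvd.mul_right (Dvd.dvd.mul_left (dvd_refl _) _) _) _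
        exact (dvd_sub_right h1).mp ((pow_dvd_pow 2 he.le).trans hF)
      have he3 : (2 : ℤ) ^ e ≤ B := by
        rw [hBb]; exact Int.le_of_dvd (abs_pos.mpr hb) ((dvd_abs _ b).mpr he2)
      apply hF0
      apply eq_zero_of_dvd_of_abs_lt hF
      have h3 : (2 : ℤ) ^ e * B * (r : ℤ) ^ 4 ≤ B ^ 2 * (r : ℤ) ^ 4 := by
        rw [sq]; gcongr
      have h5 := abs_sub (σ * 2 ^ e * κ * (r : ℤ) ^ 4) b
      linarith
    · apply hb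
      have h1 : (2 : ℤ) ^ V ∣ σ * 2 ^ e * κ * r ^ 4 := by
        have : (2 : ℤ) ^ V ∣ 2 ^ e := pow_dvd_pow 2 he
        exact Dvd.dvd.mul_right (Dvd.dvd.mul_right (Dvd.dvd.mul_left this _) _) _
      have h2 : (2 : ℤ) ^ V ∣ b := (dvd_sub_right h1).mp hF
      apply eq_zero_of_dvd_of_abs_lt h2
      rw [← hBb]; exact hBV

theorem exactB (a b : ℤ) (hb : b ≠ 0) (r : ℕ) (hr : r.Prime) (hr2 : r ≠ 2)
    (hrb : ¬ (r : ℤ) ∣ b) :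
    ∃ J : ℕ, ∀ j ≥ J, ∀ κ : ℤ, 0 < κ → κ ∣ b → κ % 2 = 1 → ∀ σ : ℤ, (σ = 1 ∨ σ = -1) →
      ∀ s e : ℕ, 0 < s → (2 : ℤ) ^ j ∣ σ * 2 ^ e * κ * r ^ 4 -
        (κ ^ 2 * r ^ 4 + a * σ * 2 ^ s * κ * r ^ 2 + b * 4 ^ s) → κ = 1 ∧ σ = 1 ∧ e = 0 := by
  set B : ℕ := b.natAbs with hB
  have hBb : (B : ℤ) = |b| := by simp [hB]
  obtain ⟨S, hS⟩ := exists_two_pow_gt (B * r ^ 4 + B ^ 2 * r ^ 4)
  obtain ⟨J, hJ⟩ := exists_two_pow_gt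
    (B * r ^ 4 + B ^ 2 * r ^ 4 + a.natAbs * 2 ^ S * B * r ^ 2 + B * 4 ^ S)
  refine ⟨max 1 (max J S), fun j hj κ hκ hκb hκ2 σ hσ s e hs hdvd => ?_⟩
  have hj1 : 1 ≤ j := le_trans (le_max_left _ _) hj
  have hjJ : J ≤ j := le_trans (le_trans (le_max_left _ _) (le_max_right _ _)) hj
  have hjS : S ≤ j := le_trans (le_trans (le_max_right _ _) (le_max_right _ _)) hj
  have hκB : κ ≤ B := by
    rw [hBb]; exact Int.le_of_dvd (abs_pos.mpr hb) ((dvd_abs κ b).mpr hκb)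
  have hBpos : (0 : ℤ) < B := by rw [hBb]; exact abs_pos.mpr hb
  have hrpos : (0 : ℤ) < r := by exact_mod_cast hr.pos
  have hnat : (a.natAbs : ℤ) = |a| := by simp
  have hσ1 : |σ| = 1 := by rcases hσ with h | h <;> rw [h] <;> norm_num
  push_cast at hS hJ
  have hrodd : (r : ℤ) % 2 = 1 := by
    have := hr.eq_two_or_odd.resolve_left hr2
    omega
  have hr4odd : ((r : ℤ) ^ 4) % 2 = 1 := by
    have := Odd.pow (n := 4) (Int.odd_iff.mpr hrodd)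
    exact Int.odd_iff.mp this
  -- `e = 0`
  have he0 : e = 0 := by
    by_contra he
    have h1 : (2 : ℤ) ∣ σ * 2 ^ e * κ * r ^ 4 :=
      Dvd.dvd.mul_right (Dvd.dvd.mul_right (Dvd.dvd.mul_left (dvd_pow_self 2 he) _) _) _
    have h2 : (2 : ℤ) ∣ a * σ * 2 ^ s * κ * r ^ 2 :=
      Dvd.dvd.mul_right (Dvd.dvd.mul_right (Dvd.dvd.mul_left (dvd_pow_self 2 hs.ne') _) _) _
    have h3 : (2 : ℤ) ∣ b * 4 ^ s :=
      Dvd.dvd.mul_left (dvd_trans (by norm_num) (dvd_pow_self 4 hs.ne')) _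
    have h4 : (2 : ℤ) ∣ κ ^ 2 * r ^ 4 := by
      have h5 : (2 : ℤ) ∣ κ ^ 2 * r ^ 4 + a * σ * 2 ^ s * κ * r ^ 2 + b * 4 ^ s :=
        (dvd_sub_right h1).mp ((dvd_pow_self 2 (by omega)).trans hdvd)
      have h6 : κ ^ 2 * (r : ℤ) ^ 4 = (κ ^ 2 * r ^ 4 + a * σ * 2 ^ s * κ * r ^ 2 + b * 4 ^ s) -
        a * σ * 2 ^ s * κ * r ^ 2 - b * 4 ^ s := by ring
      rw [h6]
      exact dvd_sub (dvd_sub h5 h2) h3
    have h7 : Odd (κ ^ 2 * (r : ℤ) ^ 4) :=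
      (Int.odd_iff.mpr hκ2).pow.mul (Int.odd_iff.mpr hr4odd)
    rw [Int.odd_iff] at h7
    omega
  subst he0
  have habs1 := abs_term1 (σ := σ) hκ hκB hσ 0 r
  simp only [pow_zero, mul_one, one_mul] at habs1 hdvd
  have hD : |σ * κ * (r : ℤ) ^ 4 - κ ^ 2 * r ^ 4| ≤ B * r ^ 4 + B ^ 2 * r ^ 4 := by
    have h1 : |κ ^ 2 * (r : ℤ) ^ 4| ≤ B ^ 2 * r ^ 4 := by
      rw [abs_of_nonneg (by positivity)]; gcongr
    have h2 := abs_sub (σ * κ * (r : ℤ) ^ 4) (κ ^ 2 * r ^ 4)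
    linarith
  rcases lt_or_ge s S with hs' | hs'
  · exfalso
    have hE0 : σ * κ * (r : ℤ) ^ 4 -
        (κ ^ 2 * r ^ 4 + a * σ * 2 ^ s * κ * r ^ 2 + b * 4 ^ s) ≠ 0 := by
      intro h0
      have h1 : (r : ℤ) ∣ b * 4 ^ s := by
        have : b * 4 ^ s = σ * κ * (r : ℤ) ^ 4 - κ ^ 2 * r ^ 4 - a * σ * 2 ^ s * κ * r ^ 2 := by
          linarith
        rw [this]
        exact dvd_sub (dvd_sub (Dvd.dvd.mul_left (dvd_pow_self _ (by norm_num)) _)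
          (Dvd.dvd.mul_left (dvd_pow_self _ (by norm_num)) _))
          (Dvd.dvd.mul_left (dvd_pow_self _ (by norm_num)) _)
      have hrp : Prime (r : ℤ) := Nat.prime_iff_prime_int.mp hr
      rcases hrp.dvd_or_dvd h1 with h | h
      · exact hrb h
      · have h2 : (r : ℤ) ∣ 4 := hrp.dvd_of_dvd_pow h
        have h3 : (r : ℤ) ∣ 2 ^ 2 := by norm_num; exact h2
        have h4 : (r : ℤ) ∣ 2 := hrp.dvd_of_dvd_pow h3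
        have h5 : r ∣ 2 := by exact_mod_cast h4
        exact hr2 ((Nat.prime_dvd_prime_iff_eq hr Nat.prime_two).mp h5)
    apply hE0
    apply eq_zero_of_dvd_of_abs_lt hdvd
    have h4 : (2 : ℤ) ^ J ≤ 2 ^ j := pow_le_pow_right₀ (by norm_num) hjJ
    have h2s : (2 : ℤ) ^ s ≤ 2 ^ S := pow_le_pow_right₀ (by norm_num) hs'.le
    have h4s : (4 : ℤ) ^ s ≤ 4 ^ S := pow_le_pow_right₀ (by norm_num) hs'.le
    have e1 : |a * σ * 2 ^ s * κ * (r : ℤ) ^ 2| ≤ |a| * 2 ^ S * B * (r : ℤ) ^ 2 := by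
      rw [abs_mul, abs_mul, abs_mul, abs_mul, hσ1, abs_of_pos hκ,
        abs_of_nonneg (show (0 : ℤ) ≤ 2 ^ s by positivity),
        abs_of_nonneg (show (0 : ℤ) ≤ (r : ℤ) ^ 2 by positivity), mul_one]
      gcongr
    have e2 : |b * 4 ^ s| ≤ B * 4 ^ S := by
      rw [abs_mul, ← hBb, abs_of_nonneg (show (0 : ℤ) ≤ 4 ^ s by positivity)]
      gcongr
    have e3 : σ * κ * (r : ℤ) ^ 4 - (κ ^ 2 * r ^ 4 + a * σ * 2 ^ s * κ * r ^ 2 + b * 4 ^ s) =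
      (σ * κ * (r : ℤ) ^ 4 - κ ^ 2 * r ^ 4) - a * σ * 2 ^ s * κ * r ^ 2 - b * 4 ^ s := by ring
    have e4 := abs_sub ((σ * κ * (r : ℤ) ^ 4 - κ ^ 2 * r ^ 4) - a * σ * 2 ^ s * κ * r ^ 2)
      (b * 4 ^ s)
    have e5 := abs_sub (σ * κ * (r : ℤ) ^ 4 - κ ^ 2 * r ^ 4) (a * σ * 2 ^ s * κ * r ^ 2)
    rw [e3]
    linarith
  · have h2S : (2 : ℤ) ^ S ∣ 2 ^ s := pow_dvd_pow 2 hs'
    have h4S : (2 : ℤ) ^ S ∣ 4 ^ s := by
      have : (4 : ℤ) ^ s = 2 ^ s * 2 ^ s := by rw [← mul_pow]; norm_num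
      rw [this]; exact Dvd.dvd.mul_right h2S _
    have hd : (2 : ℤ) ^ S ∣ σ * κ * (r : ℤ) ^ 4 - κ ^ 2 * r ^ 4 := by
      have e3 : σ * κ * (r : ℤ) ^ 4 - κ ^ 2 * r ^ 4 =
        (σ * κ * (r : ℤ) ^ 4 - (κ ^ 2 * r ^ 4 + a * σ * 2 ^ s * κ * r ^ 2 + b * 4 ^ s)) +
        a * σ * 2 ^ s * κ * r ^ 2 + b * 4 ^ s := by ring
      rw [e3]
      exact dvd_add (dvd_add ((pow_dvd_pow 2 hjS).trans hdvd)
        (Dvd.dvd.mul_right (Dvd.dvd.mul_right (Dvd.dvd.mul_left h2S _) _) _))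
        (Dvd.dvd.mul_left h4S _)
    have h0 := eq_zero_of_dvd_of_abs_lt hd (by linarith)
    have h1 : (κ * (r : ℤ) ^ 4) * (σ - κ) = 0 := by rw [← h0]; ring
    have h2 : κ * (r : ℤ) ^ 4 ≠ 0 := by positivity
    have h3 : σ - κ = 0 := by
      rcases mul_eq_zero.mp h1 with h | h
      · exact absurd h h2
      · exact h
    have h4 : σ = κ := by linarith
    rcases hσ with h | h
    · exact ⟨by linarith, h, rfl⟩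
    · exfalso; linarith

end Pool.Agent.Helper13.Lang
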