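import Mathlib

/-!
Valuation lemmas for `g² x = x² + a x + b` and numbers whose prime factors have trivial powers
modulo `2 ^ i`.
-/

namespace Pool.Agent.Helper13.Lang

/-- `v_l(q) ≥ c` or `q = 0`. -/
def VGe (l : ℕ) (c : ℤ) (q : ℚ) : Prop := q = 0 ∨ c ≤ padicValRat l q

theorem VGe.add {l : ℕ} [Fact l.Prime] {c : ℤ} {q s : ℚ} (hq : VGe l c q) (hs : VGe l c s) :
    VGe l c (q + s) := by
  rcases hq with rfl | hq
  · simpa using hs
  rcases hs with rfl | hs
  · right; simpa using hq
  by_cases h : q + s = 0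
  · left; exact h
  · right
    exact le_trans (le_min hq hs) (padicValRat.min_le_padicValRat_add h)

theorem VGe.mono {l : ℕ} {c d : ℤ} {q : ℚ} (hq : VGe l c q) (h : d ≤ c) : VGe l d q := by
  rcases hq with rfl | hq
  · left; rfl
  · right; exact h.trans hq

theorem VGe.int (l : ℕ) (a : ℤ) : VGe l 0 (a : ℚ) := by
  right; rw [padicValRat.of_int]; positivity

theorem VGe.mul {l : ℕ} [Fact l.Prime] {c d : ℤ} {q s : ℚ} (hq : VGe l c q) (hs : VGe l d s) :
    VGe l (c + d) (q * s) := by
  rcases hq with rfl | hq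
  · left; simp
  rcases hs with rfl | hs
  · left; simp
  by_cases hq0 : q = 0
  · left; simp [hq0]
  by_cases hs0 : s = 0
  · left; simp [hs0]
  right
  rw [padicValRat.mul hq0 hs0]
  linarith

/-- If `q ≠ 0` and `s` has larger valuation then `v(q + s) = v(q)`. -/
theorem val_add_eq {l : ℕ} [Fact l.Prime] {q s : ℚ} (hq : q ≠ 0)
    (hs : VGe l (padicValRat l q + 1) s) : q + s ≠ 0 ∧ padicValRat l (q + s) = padicValRat l q := by
  rcases hs with rfl | hs
  · simp [hq]
  by_cases hs0 : s = 0
  · simp [hs0, hq]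
  have hne : q + s ≠ 0 := by
    intro h0
    have : s = -q := by linarith
    rw [this, padicValRat.neg] at hs
    omega
  exact ⟨hne, padicValRat.add_eq_of_lt hne hq hs0 (by omega)⟩

variable {l : ℕ} [Fact l.Prime] {a b : ℤ} {x g : ℚ}

theorem val_neg (hx : x ≠ 0) (hg : g ≠ 0) (h : g ^ 2 * x = x ^ 2 + a * x + b)
    (hneg : padicValRat l x < 0) : padicValRat l x = 2 * padicValRat l g := by
  have hx2 : x ^ 2 ≠ 0 := pow_ne_zero 2 hx
  have hv2 : padicValRat l (x ^ 2) = 2 * padicValRat l x := by rw [padicValRat.pow]; norm_num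
  have h1 : VGe l (padicValRat l x) ((a : ℚ) * x) := by
    have := (VGe.int l a).mul (l := l) (d := padicValRat l x) (s := x) (Or.inr le_rfl)
    simpa using this
  have h2 : VGe l (padicValRat l x) (b : ℚ) := (VGe.int l b).mono hneg.le
  have h3 : VGe l (padicValRat l (x ^ 2) + 1) ((a : ℚ) * x + b) :=
    (h1.add h2).mono (by rw [hv2]; omega)
  obtain ⟨-, h4⟩ := val_add_eq hx2 h3
  rw [← add_assoc, ← h, padicValRat.mul (pow_ne_zero 2 hg) hx, padicValRat.pow, hv2] at h4
  push_cast at h4
  linarith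

theorem val_big (hx : x ≠ 0) (hg : g ≠ 0) (hb : b ≠ 0) (h : g ^ 2 * x = x ^ 2 + a * x + b)
    (hbig : padicValRat l (b : ℚ) < padicValRat l x) :
    padicValRat l x = padicValRat l (b : ℚ) - 2 * padicValRat l g := by
  have hb0 : (b : ℚ) ≠ 0 := by exact_mod_cast hb
  have hvb : 0 ≤ padicValRat l (b : ℚ) := by rw [padicValRat.of_int]; positivity
  have hv2 : padicValRat l (x ^ 2) = 2 * padicValRat l x := by rw [padicValRat.pow]; norm_num
  have h1 : VGe l (padicValRat l (b : ℚ) + 1) ((a : ℚ) * x) := by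
    have := (VGe.int l a).mul (l := l) (d := padicValRat l x) (s := x) (Or.inr le_rfl)
    exact this.mono (by omega)
  have h2 : VGe l (padicValRat l (b : ℚ) + 1) (x ^ 2) := Or.inr (by rw [hv2]; omega)
  obtain ⟨-, h4⟩ := val_add_eq hb0 (h2.add h1)
  rw [add_comm, ← h, padicValRat.mul (pow_ne_zero 2 hg) hx, padicValRat.pow] at h4
  push_cast at h4
  linarith

theorem val_nonneg_num (hx : 0 ≤ padicValRat l x) : padicValNat l x.den = 0 := by
  by_contra hcon
  have hd : l ∣ x.den := dvd_of_one_le_padicValNat (by omega)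
  have hn : ¬ l ∣ x.num.natAbs := fun h' => (Fact.out : l.Prime).one_lt.ne'
    (Nat.eq_one_of_dvd_coprimes x.reduced h' hd)
  have h1 : padicValInt l x.num = 0 := padicValNat.eq_zero_of_not_dvd hn
  rw [padicValRat_def, h1] at hx
  omega

theorem val_neg_num (hx : padicValRat l x < 0) : padicValInt l x.num = 0 := by
  by_contra hcon
  have hn : l ∣ x.num.natAbs := dvd_of_one_le_padicValNat (by unfold padicValInt at hcon; omega)
  have hd : ¬ l ∣ x.den := fun h' => (Fact.out : l.Prime).one_lt.ne'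
    (Nat.eq_one_of_dvd_coprimes x.reduced hn h')
  rw [padicValRat_def, padicValNat.eq_zero_of_not_dvd hd] at hx
  omega

/-- Valuation of a gcd. -/
theorem padicValNat_gcd {m n : ℕ} (hm : m ≠ 0) (hn : n ≠ 0) :
    padicValNat l (Nat.gcd m n) = min (padicValNat l m) (padicValNat l n) := by
  have hl : l.Prime := Fact.out
  rw [← Nat.factorization_def _ hl, ← Nat.factorization_def _ hl, ← Nat.factorization_def _ hl,
    Nat.factorization_gcd hm hn]
  rfl

/-- The odd part of `gcd (num x, b)`. -/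
def kap (b : ℤ) (x : ℚ) : ℕ := ordCompl[2] (Nat.gcd x.num.natAbs b.natAbs)

theorem kap_pos (hb : b ≠ 0) : 0 < kap b x := by
  unfold kap
  apply Nat.ordCompl_pos
  exact Nat.gcd_ne_zero_right (by simpa using hb)

theorem kap_dvd : kap b x ∣ b.natAbs := by
  unfold kap
  exact (Nat.ordCompl_dvd _ _).trans (Nat.gcd_dvd_right _ _)

theorem kap_odd (hb : b ≠ 0) : kap b x % 2 = 1 := by
  unfold kap
  have := Nat.not_dvd_ordCompl (p := 2) Nat.prime_two
    (n := Nat.gcd x.num.natAbs b.natAbs) (Nat.gcd_ne_zero_right (by simpa using hb))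
  omega

theorem kap_val (hl2 : l ≠ 2) (hx : x ≠ 0) (hb : b ≠ 0) :
    (padicValNat l (kap b x) : ℤ) = max 0 (min (padicValRat l x) (padicValRat l (b : ℚ))) := by
  have hl : l.Prime := Fact.out
  have hnum : x.num.natAbs ≠ 0 := by simpa using hx
  have hbn : b.natAbs ≠ 0 := by simpa using hb
  have h1 : padicValNat l (kap b x) = padicValNat l (Nat.gcd x.num.natAbs b.natAbs) := by
    unfold kap
    rw [← Nat.factorization_def _ hl, ← Nat.factorization_def _ hl, Nat.factorization_ordCompl,
      Finsupp.erase_ne hl2]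
  have hvb : padicValRat l (b : ℚ) = padicValNat l b.natAbs := by
    rw [padicValRat.of_int]; rfl
  rw [h1, padicValNat_gcd hnum hbn, hvb]
  rcases lt_or_ge (padicValRat l x) 0 with h | h
  · have h2 : padicValNat l x.num.natAbs = 0 := val_neg_num h
    rw [h2]
    simp only [Nat.zero_min, Nat.cast_zero]
    rw [max_eq_left]
    exact (min_le_left _ _).trans h.le
  · have h2 := val_nonneg_num h
    have h3 : padicValRat l x = padicValNat l x.num.natAbs := by
      rw [padicValRat_def, h2]; simp [padicValInt]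
    rw [h3, max_eq_right (by positivity)]
    push_cast
    rfl

/-- `v_l(x) - v_l(κ) ∈ {2 v_l(g), -2 v_l(g), 0}`. -/
theorem val_sub_kap (hl2 : l ≠ 2) (hx : x ≠ 0) (hg : g ≠ 0) (hb : b ≠ 0)
    (h : g ^ 2 * x = x ^ 2 + a * x + b) :
    padicValRat l x - padicValNat l (kap b x) = 2 * padicValRat l g ∨
    padicValRat l x - padicValNat l (kap b x) = -(2 * padicValRat l g) ∨
    padicValRat l x - padicValNat l (kap b x) = 0 := by
  have hvb : 0 ≤ padicValRat l (b : ℚ) := by rw [padicValRat.of_int]; positivity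
  rw [kap_val hl2 hx hb]
  rcases lt_or_ge (padicValRat l x) 0 with h1 | h1
  · left
    have h0 := val_neg hx hg h h1
    rw [max_eq_left ((min_le_left _ _).trans h1.le), h0]
    ring
  · rcases lt_or_ge (padicValRat l (b : ℚ)) (padicValRat l x) with h2 | h2
    · right; left
      rw [min_eq_right h2.le, max_eq_right hvb]
      rw [val_big hx hg hb h h2]
      ring
    · right; right
      rw [min_eq_left h2, max_eq_right h1]
      ring

section ModOne

variable {i : ℕ}

theorem natCast_eq_one {N : ℕ} (hN : N % 2 = 1)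
    (h : ∀ p : ℕ, p.Prime → p ≠ 2 → ((p : ZMod (2 ^ i)) ^ (padicValNat p N) = 1)) :
    (N : ZMod (2 ^ i)) = 1 := by
  have hN0 : N ≠ 0 := by rintro rfl; simp at hN
  conv_lhs => rw [← Nat.prod_factorization_pow_eq_self hN0]
  rw [Finsupp.prod, Nat.cast_prod]
  apply Finset.prod_eq_one
  intro p hp
  have hpp : p.Prime := Nat.prime_of_mem_primeFactors (by simpa using hp)
  have hpN : p ∣ N := Nat.dvd_of_mem_primeFactors (by simpa using hp)
  have hp2 : p ≠ 2 := by rintro rfl; omega
  rw [Nat.cast_pow, Nat.factorization_def _ hpp]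
  exact h p hpp hp2

/-- A positive rational number with trivial `2`-adic valuation all whose odd prime factors have
trivial prime powers modulo `2 ^ i`. -/
theorem ratOne {w : ℚ} (hw : 0 < w) (h2 : padicValRat 2 w = 0)
    (h : ∀ p : ℕ, p.Prime → p ≠ 2 → ((p : ZMod (2 ^ i)) ^ (padicValRat p w).natAbs = 1)) :
    ((w.num : ℤ) : ZMod (2 ^ i)) = 1 ∧ ((w.den : ℕ) : ZMod (2 ^ i)) = 1 ∧
      w.num.natAbs % 2 = 1 ∧ w.den % 2 = 1 := by
  have hw0 : w ≠ 0 := hw.ne'
  have hnpos : 0 < w.num := Rat.num_pos.mpr hw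
  have h2f : Fact (Nat.Prime 2) := ⟨Nat.prime_two⟩
  have hd0 : padicValNat 2 w.den = 0 := val_nonneg_num h2.ge
  have hn0 : padicValNat 2 w.num.natAbs = 0 := by
    have := padicValRat_def 2 w
    rw [h2, hd0] at this
    have h3 : padicValInt 2 w.num = 0 := by omega
    exact h3
  have hdodd : w.den % 2 = 1 := by
    by_contra hcon
    have : 2 ∣ w.den := by omega
    have := one_le_padicValNat_of_dvd w.den_ne_zero this
    omega
  have hnodd : w.num.natAbs % 2 = 1 := by
    by_contra hcon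
    have : 2 ∣ w.num.natAbs := by omega
    have := one_le_padicValNat_of_dvd (by omega) this
    omega
  have key : ∀ p : ℕ, p.Prime → p ≠ 2 → (p : ZMod (2 ^ i)) ^ (padicValNat p w.num.natAbs) = 1 ∧
      (p : ZMod (2 ^ i)) ^ (padicValNat p w.den) = 1 := by
    intro p hp hp2
    have := Fact.mk hp
    have h3 := h p hp hp2
    rcases lt_or_ge (padicValRat p w) 0 with h4 | h4
    · have h5 : padicValInt p w.num = 0 := val_neg_num h4
      have h6 : padicValRat p w = -(padicValNat p w.den : ℤ) := by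
        rw [padicValRat_def, h5]; simp
      have h7 : (padicValRat p w).natAbs = padicValNat p w.den := by rw [h6]; simp
      rw [h7] at h3
      have h8 : padicValNat p w.num.natAbs = 0 := h5
      rw [h8]
      exact ⟨pow_zero _, h3⟩
    · have h5 := val_nonneg_num h4
      have h6 : padicValRat p w = (padicValNat p w.num.natAbs : ℤ) := by
        rw [padicValRat_def, h5]; simp [padicValInt]
      have h7 : (padicValRat p w).natAbs = padicValNat p w.num.natAbs := by rw [h6]; simp
      rw [h7] at h3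
      rw [h5]
      exact ⟨h3, pow_zero _⟩
  have hN := natCast_eq_one (i := i) hnodd (fun p hp hp2 => (key p hp hp2).1)
  have hD := natCast_eq_one (i := i) hdodd (fun p hp hp2 => (key p hp hp2).2)
  refine ⟨?_, hD, hnodd, hdodd⟩
  have : w.num = ((w.num.natAbs : ℕ) : ℤ) := by omega
  rw [this, Int.cast_natCast]
  exact hN

end ModOne

theorem nonneg_of_odd {z m k : ℤ} (hm : m % 2 = 1) (h : (2 : ℚ) ^ z * m = k) : 0 ≤ z := by
  by_contra hz
  rw [not_le] at hz
  obtain ⟨n, hn⟩ : ∃ n : ℕ, z = -((n : ℤ) + 1) := ⟨(-z - 1).toNat, by omega⟩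
  rw [hn, zpow_neg] at h
  have h2 : (2 : ℚ) ^ ((n : ℤ) + 1) ≠ 0 := by positivity
  rw [inv_mul_eq_iff_eq_mul₀ h2] at h
  have h3 : (m : ℚ) = ((2 ^ (n + 1) * k : ℤ) : ℚ) := by
    rw [h]; push_cast
    congr 1
  have h4 : m = 2 ^ (n + 1) * k := by exact_mod_cast h3
  rw [pow_succ, mul_assoc, mul_comm, mul_assoc] at h4
  omega

theorem natIsSquare {n : ℕ} (hn : n ≠ 0) (h : ∀ p : ℕ, p.Prime → Even (padicValNat p n)) :
    ∃ m : ℕ, n = m ^ 2 := by
  obtain ⟨s, t, hs, ht, hst, hsq⟩ := Nat.sq_mul_squarefree_of_pos (Nat.pos_of_ne_zero hn)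
  by_cases hs1 : s = 1
  · exact ⟨t, by rw [← hst, hs1, mul_one]⟩
  · exfalso
    set p := s.minFac with hp
    have hpp : p.Prime := Nat.minFac_prime hs1
    have := Fact.mk hpp
    have hps : p ∣ s := Nat.minFac_dvd s
    have h1 := h p hpp
    rw [← hst, padicValNat.mul (pow_ne_zero 2 ht.ne') hs.ne', padicValNat.pow] at h1
    have h2 : padicValNat p s = 1 := by
      have h3 := hsq.natFactorization_le_one p
      rw [Nat.factorization_def _ hpp] at h3
      have h4 := one_le_padicValNat_of_dvd hs.ne' hps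
      omega
    rw [h2] at h1
    have h5 : Odd (2 * padicValNat p t + 1) := ⟨_, rfl⟩
    exact (Nat.not_even_iff_odd.mpr h5) h1

theorem ratIsSquare {x : ℚ} (hx : 0 < x) (h : ∀ p : ℕ, p.Prime → Even (padicValRat p x)) :
    ∃ y : ℚ, x = y ^ 2 := by
  have hn : 0 < x.num := Rat.num_pos.mpr hx
  have hne : x.num.natAbs * x.den ≠ 0 := mul_ne_zero (by omega) x.den_ne_zero
  obtain ⟨m, hm⟩ := natIsSquare (n := x.num.natAbs * x.den) hne (by
    intro p hp
    have := Fact.mk hp
    have h1 := h p hp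
    rw [padicValNat.mul (by omega) x.den_ne_zero]
    rw [padicValRat_def] at h1
    have h2 : Even (((padicValInt p x.num : ℤ) - padicValNat p x.den) + 2 * padicValNat p x.den) :=
      h1.add (even_two_mul _)
    have h3 : ((padicValInt p x.num : ℤ) - padicValNat p x.den) + 2 * padicValNat p x.den =
      ((padicValNat p x.num.natAbs + padicValNat p x.den : ℕ) : ℤ) := by
      have h4 : padicValInt p x.num = padicValNat p x.num.natAbs := rfl
      rw [h4]
      omega
    rw [h3] at h2
    exact_mod_cast h2)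
  refine ⟨m / x.den, ?_⟩
  have hd : (x.den : ℚ) ≠ 0 := by exact_mod_cast x.den_ne_zero
  have h1 : ((x.num.natAbs * x.den : ℕ) : ℚ) = (m : ℚ) ^ 2 := by rw [hm]; push_cast; rfl
  have h2 : ((x.num.natAbs : ℕ) : ℚ) = x.num := by
    have h5 : ((x.num.natAbs : ℕ) : ℤ) = x.num := by omega
    rw [← Int.cast_natCast, h5]
  rw [Nat.cast_mul, h2] at h1
  have h3 : x * x.den = x.num := Rat.mul_den_eq_num x
  rw [div_pow, ← h1, ← h3]
  field_simp

end Pool.Agent.Helper13.Lang
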