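import Pool.Agent.Helper13.Lang.Exact
import Pool.Agent.Helper13.Lang.Val

/-!
The key lemma: at an anchored point the abscissa is a square.
-/

namespace Pool.Agent.Helper13.Lang

/-- The prime factors `l ≠ 2, r` of `g` occur to powers whose squares are `1` modulo `2 ^ i`. -/
def Gd (i r : ℕ) (g : ℚ) : Prop :=
  ∀ l : ℕ, l.Prime → l ≠ 2 → l ≠ r → (l : ZMod (2 ^ i)) ^ (2 * (padicValRat l g).natAbs) = 1

/-- A rational point `(x, g)`, `g = y / x`, of `y² = x (x² + a x + b)` all whose odd prime factors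
`l ≠ r` are good and which is close to `O` at `r`. -/
structure Anch (i r : ℕ) (a b : ℤ) (x g : ℚ) : Prop where
  hx : x ≠ 0
  hg : g ≠ 0
  eq : g ^ 2 * x = x ^ 2 + a * x + b
  gd : Gd i r g
  gr : (r : ZMod (2 ^ i)) ^ (2 * (padicValRat r g - 1).natAbs) = 1
  neg : padicValRat r x < 0

theorem cast_of_dvd {i : ℕ} {m : ℤ} (h : (m : ZMod (2 ^ i)) = 0) : (2 : ℤ) ^ i ∣ m := by
  have := (ZMod.intCast_zmod_eq_zero_iff_dvd m (2 ^ i)).mp h
  exact_mod_cast this

theorem key (a b : ℤ) (hb : b ≠ 0) (r : ℕ) (hr : r.Prime) (hr2 : r ≠ 2)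
    (hrb : ¬ (r : ℤ) ∣ b) :
    ∃ J : ℕ, ∀ i ≥ J, ∀ x g : ℚ, Anch i r a b x g →
      ∃ h : ℚ, x = h ^ 2 ∧ Gd i r h ∧ padicValRat r h = padicValRat r g := by
  obtain ⟨J1, hJ1⟩ := exactA a b hb r hr hrb
  obtain ⟨J2, hJ2⟩ := exactB a b hb r hr hr2 hrb
  refine ⟨max J1 J2, fun i hi x g hA => ?_⟩
  have hi1 : J1 ≤ i := le_trans (le_max_left _ _) hi
  have hi2 : J2 ≤ i := le_trans (le_max_right _ _) hi
  obtain ⟨hx, hg, heq, hgd, hgr, hneg⟩ := hA
  have := Fact.mk hr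
  have h2f : Fact (Nat.Prime 2) := ⟨Nat.prime_two⟩
  have hr0 : (r : ℚ) ≠ 0 := by exact_mod_cast hr.ne_zero
  set κ : ℕ := kap b x with hκdef
  have hκpos : 0 < κ := kap_pos hb
  have hκdvd : (κ : ℤ) ∣ b := Int.natCast_dvd.mpr kap_dvd
  have hκodd : κ % 2 = 1 := kap_odd hb
  have hκ0 : (κ : ℚ) ≠ 0 := by exact_mod_cast hκpos.ne'
  have hvx : padicValRat r x = 2 * padicValRat r g := val_neg hx hg heq hneg
  -- sign
  obtain ⟨σ, hσ, hσx⟩ : ∃ σ : ℤ, (σ = 1 ∨ σ = -1) ∧ (0 : ℚ) < σ * x := by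
    rcases lt_or_gt_of_ne hx with h | h
    · exact ⟨-1, Or.inr rfl, by push_cast; linarith⟩
    · exact ⟨1, Or.inl rfl, by push_cast; linarith⟩
  have hσ2 : (σ : ℚ) * σ = 1 := by rcases hσ with h | h <;> rw [h] <;> norm_num
  have hσ2z : σ * σ = 1 := by rcases hσ with h | h <;> rw [h] <;> norm_num
  have hσv : ∀ l : ℕ, padicValRat l (σ * x) = padicValRat l x := by
    intro l
    rcases hσ with h | h <;> rw [h] <;> simp
  set v := padicValRat 2 x with hv
  set w := padicValRat 2 g with hw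
  -- the two units
  set ω : ℚ := (σ * x) / ((2 : ℚ) ^ v * κ * (r : ℚ) ^ 2) with hω
  set η : ℚ := g ^ 2 / ((2 : ℚ) ^ (2 * w) * (r : ℚ) ^ 2) with hη
  have h2v : ((2 : ℚ) ^ v) ≠ 0 := by positivity
  have h2w : ((2 : ℚ) ^ (2 * w)) ≠ 0 := by positivity
  have hden1 : (2 : ℚ) ^ v * κ * (r : ℚ) ^ 2 ≠ 0 := by positivity
  have hden2 : (2 : ℚ) ^ (2 * w) * (r : ℚ) ^ 2 ≠ 0 := by positivity
  have hωpos : 0 < ω := by rw [hω]; positivity
  have hηpos : 0 < η := by rw [hη]; positivity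
  -- valuations of the two units
  have val2 : ∀ l : ℕ, l.Prime → l ≠ 2 → padicValRat l (2 : ℚ) = 0 := by
    intro l hl hl2
    have := Fact.mk hl
    have h1 := padicValRat.of_nat (p := l) (n := 2)
    rw [padicValNat.eq_zero_of_not_dvd (fun h => hl2 ((Nat.prime_dvd_prime_iff_eq hl Nat.prime_two).mp h))] at h1
    exact_mod_cast h1
  have val22 : padicValRat 2 (2 : ℚ) = 1 := by
    have := padicValRat.self (p := 2) (by norm_num)
    exact_mod_cast this
  have valr : ∀ l : ℕ, l.Prime → l ≠ r → padicValRat l (r : ℚ) = 0 := by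
    intro l hl hlr
    have := Fact.mk hl
    rw [padicValRat.of_nat, padicValNat.eq_zero_of_not_dvd
      (fun h => hlr ((Nat.prime_dvd_prime_iff_eq hl hr).mp h))]
    rfl
  have valrr : padicValRat r (r : ℚ) = 1 := padicValRat.self hr.one_lt
  have vω : ∀ l : ℕ, l.Prime → padicValRat l ω =
      padicValRat l x - (v * padicValRat l (2 : ℚ) + padicValNat l κ + 2 * padicValRat l (r : ℚ)) := by
    intro l hl
    have := Fact.mk hl
    rw [hω, padicValRat.div hσx.ne' hden1, hσv, padicValRat.mul (mul_ne_zero h2v hκ0)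
      (pow_ne_zero 2 hr0), padicValRat.mul h2v hκ0, padicValRat.zpow, padicValRat.pow,
      padicValRat.of_nat]
    push_cast
    ring
  have vη : ∀ l : ℕ, l.Prime → padicValRat l η =
      2 * padicValRat l g - (2 * w * padicValRat l (2 : ℚ) + 2 * padicValRat l (r : ℚ)) := by
    intro l hl
    have := Fact.mk hl
    rw [hη, padicValRat.div (pow_ne_zero 2 hg) hden2, padicValRat.pow, padicValRat.mul h2w
      (pow_ne_zero 2 hr0), padicValRat.zpow, padicValRat.pow]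
    push_cast
    ring
  have hκ2 : padicValNat 2 κ = 0 := padicValNat.eq_zero_of_not_dvd (by omega)
  have hκr : padicValNat r κ = 0 := by
    apply padicValNat.eq_zero_of_not_dvd
    intro h
    exact hrb ((Int.natCast_dvd_natCast.mpr h).trans hκdvd)
  have hω2 : padicValRat 2 ω = 0 := by
    rw [vω 2 Nat.prime_two, val22, hκ2, valr 2 Nat.prime_two (Ne.symm hr2)]
    simp [hv]
  have hη2 : padicValRat 2 η = 0 := by
    rw [vη 2 Nat.prime_two, val22, valr 2 Nat.prime_two (Ne.symm hr2)]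
    simp [hw]
  have hωl : ∀ p : ℕ, p.Prime → p ≠ 2 → ((p : ZMod (2 ^ i)) ^ (padicValRat p ω).natAbs = 1) := by
    intro p hp hp2
    have := Fact.mk hp
    by_cases hpr : p = r
    · subst hpr
      rw [vω p hp, val2 p hp hp2, hκr, valrr, hvx]
      have : (2 * padicValRat p g - (v * 0 + ((0 : ℕ) : ℤ) + 2 * 1)).natAbs =
        2 * (padicValRat p g - 1).natAbs := by
        rw [show (2 * padicValRat p g - (v * 0 + ((0 : ℕ) : ℤ) + 2 * 1)) =
          2 * (padicValRat p g - 1) by push_cast; ring, Int.natAbs_mul]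
        rfl
      rw [this]
      exact hgr
    · have h1 := hgd p hp hp2 hpr
      have h2 : padicValRat p ω = padicValRat p x - padicValNat p κ := by
        rw [vω p hp, val2 p hp hp2, valr p hp hpr]; ring
      rw [h2]
      rcases val_sub_kap hp2 hx hg hb heq with h3 | h3 | h3
      · rw [h3, Int.natAbs_mul]; exact h1
      · rw [h3, Int.natAbs_neg, Int.natAbs_mul]; exact h1
      · rw [h3]; simp
  have hηl : ∀ p : ℕ, p.Prime → p ≠ 2 → ((p : ZMod (2 ^ i)) ^ (padicValRat p η).natAbs = 1) := by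
    intro p hp hp2
    have := Fact.mk hp
    by_cases hpr : p = r
    · subst hpr
      rw [vη p hp, val2 p hp hp2, valrr]
      have : (2 * padicValRat p g - (2 * w * 0 + 2 * 1)).natAbs =
        2 * (padicValRat p g - 1).natAbs := by
        rw [show (2 * padicValRat p g - (2 * w * 0 + 2 * 1)) =
          2 * (padicValRat p g - 1) by ring, Int.natAbs_mul]
        rfl
      rw [this]
      exact hgr
    · have h1 := hgd p hp hp2 hpr
      have h2 : padicValRat p η = 2 * padicValRat p g := by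
        rw [vη p hp, val2 p hp hp2, valr p hp hpr]; ring
      rw [h2, Int.natAbs_mul]
      exact h1
  obtain ⟨hN, hD, hNo, hDo⟩ := ratOne hωpos hω2 hωl
  obtain ⟨hM, hC, hMo, hCo⟩ := ratOne hηpos hη2 hηl
  set N : ℤ := ω.num with hNdef
  set D : ℕ := ω.den with hDdef
  set M : ℤ := η.num with hMdef
  set C : ℕ := η.den with hCdef
  have hNo' : N % 2 = 1 := by omega
  have hMo' : M % 2 = 1 := by omega
  have hD0 : (D : ℚ) ≠ 0 := by exact_mod_cast ω.den_ne_zero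
  have hC0 : (C : ℚ) ≠ 0 := by exact_mod_cast η.den_ne_zero
  have hrodd : (r : ℤ) % 2 = 1 := by
    have := hr.eq_two_or_odd.resolve_left hr2
    omega
  have hωD : (N : ℚ) = ω * D := (Rat.mul_den_eq_num ω).symm
  have hηC : (M : ℚ) = η * C := (Rat.mul_den_eq_num η).symm
  have h5 : (σ : ℚ) ^ 2 = 1 := by rw [sq]; exact hσ2
  have hxeq : x = σ * ((2 : ℚ) ^ v * κ * (r : ℚ) ^ 2) * ω := by
    have h1 : ω * ((2 : ℚ) ^ v * κ * (r : ℚ) ^ 2) = σ * x := by
      rw [hω]; exact div_mul_cancel₀ _ hden1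
    linear_combination (-(σ : ℚ)) * h1 - x * h5
  have hgeq : g ^ 2 = ((2 : ℚ) ^ (2 * w) * (r : ℚ) ^ 2) * η := by
    have h1 : η * ((2 : ℚ) ^ (2 * w) * (r : ℚ) ^ 2) = g ^ 2 := by
      rw [hη]; exact div_mul_cancel₀ _ hden2
    linear_combination - h1
  have hodd : ((κ : ℤ) * r ^ 4 * M * N * D) % 2 = 1 := by
    have h1 : Odd ((κ : ℤ) * r ^ 4 * M * N * D) := by
      have e1 : Odd (κ : ℤ) := Int.odd_iff.mpr (by omega)
      have e2 : Odd (r : ℤ) := Int.odd_iff.mpr hrodd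
      have e3 : Odd M := Int.odd_iff.mpr hMo'
      have e4 : Odd N := Int.odd_iff.mpr hNo'
      have e5 : Odd (D : ℤ) := Int.odd_iff.mpr (by omega)
      exact (((e1.mul e2.pow).mul e3).mul e4).mul e5
    exact Int.odd_iff.mp h1
  rcases le_or_gt 0 v with hv0 | hv0
  · -- `v ≥ 0`: impossible
    exfalso
    obtain ⟨n, hn⟩ := Int.eq_ofNat_of_zero_le hv0
    have hvn : (2 : ℚ) ^ v = (2 : ℚ) ^ n := by rw [hn]; exact zpow_natCast 2 n
    have h4 : (4 : ℚ) ^ n = (2 : ℚ) ^ n * 2 ^ n := by rw [← mul_pow]; norm_num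
    have hR0 : (2 : ℚ) ^ (2 * w + v) * ((κ : ℚ) * r ^ 4 * M * N * D) =
        σ * C * (4 ^ n * κ ^ 2 * r ^ 4 * N ^ 2 + a * σ * 2 ^ n * κ * r ^ 2 * N * D + b * D ^ 2) := by
      have h1 := heq
      rw [hgeq, hxeq, hvn] at h1
      rw [zpow_add₀ (by norm_num), hvn, hωD, hηC, h4]
      linear_combination (σ * C * D ^ 2) * h1 + (-((2 : ℚ) ^ (2 * w) * 2 ^ n * κ * r ^ 4 * η * C * ω * D ^ 2)
        + σ * C * D ^ 2 * (2 ^ n * 2 ^ n * κ ^ 2 * r ^ 4 * ω ^ 2)) * h5
    have hnn : 0 ≤ 2 * w + v := by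
      apply nonneg_of_odd (m := (κ : ℤ) * r ^ 4 * M * N * D) (k := σ * C * (4 ^ n * κ ^ 2 * r ^ 4 * N ^ 2
        + a * σ * 2 ^ n * κ * r ^ 2 * N * D + b * D ^ 2)) hodd
      push_cast
      exact hR0
    obtain ⟨e, he⟩ := Int.eq_ofNat_of_zero_le hnn
    have hRz : (2 : ℤ) ^ e * ((κ : ℤ) * r ^ 4 * M * N * D) =
        σ * C * (4 ^ n * κ ^ 2 * r ^ 4 * N ^ 2 + a * σ * 2 ^ n * κ * r ^ 2 * N * D + b * D ^ 2) := by
      have h1 : (2 : ℚ) ^ (2 * w + v) = (2 : ℚ) ^ e := by rw [he]; exact zpow_natCast 2 e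
      rw [h1] at hR0
      exact_mod_cast hR0
    have hZ : (((σ * 2 ^ e * κ * r ^ 4 - (4 ^ n * κ ^ 2 * r ^ 4 + a * σ * 2 ^ n * κ * r ^ 2 + b) : ℤ)) :
        ZMod (2 ^ i)) = 0 := by
      have h1 := congrArg (fun z : ℤ => (z : ZMod (2 ^ i))) hRz
      push_cast at h1
      rw [hN, hM, hC, hD] at h1
      have h6 : (σ : ZMod (2 ^ i)) * σ = 1 := by exact_mod_cast congrArg (fun z : ℤ => (z : ZMod (2 ^ i))) hσ2z
      push_cast
      linear_combination (σ : ZMod (2 ^ i)) * h1 + (4 ^ n * κ ^ 2 * r ^ 4 + a * σ * 2 ^ n * κ * r ^ 2 + b) * h6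
    exact hJ1 i hi1 κ (by exact_mod_cast hκpos) hκdvd σ hσ n e (cast_of_dvd hZ)
  · -- `v < 0`
    obtain ⟨s, hs⟩ := Int.eq_ofNat_of_zero_le (show 0 ≤ -v by omega)
    have hspos : 0 < s := by omega
    have hvs : (2 : ℚ) ^ v * 2 ^ s = 1 := by
      have : v = -(s : ℤ) := by omega
      rw [this, zpow_neg, zpow_natCast]
      exact inv_mul_cancel₀ (by positivity)
    have h4 : (4 : ℚ) ^ s = (2 : ℚ) ^ s * 2 ^ s := by rw [← mul_pow]; norm_num
    have hz1 : (2 : ℚ) ^ (2 * w + s) = (2 : ℚ) ^ (2 * w) * 2 ^ s := by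
      rw [zpow_add₀ (by norm_num), zpow_natCast]
    have hR0 : (2 : ℚ) ^ (2 * w + s) * ((κ : ℚ) * r ^ 4 * M * N * D) =
        σ * C * (κ ^ 2 * r ^ 4 * N ^ 2 + a * σ * 2 ^ s * κ * r ^ 2 * N * D + b * 4 ^ s * D ^ 2) := by
      have h1 := heq
      rw [hgeq, hxeq] at h1
      rw [hz1, hωD, hηC, h4]
      linear_combination (σ * C * D ^ 2 * (2 ^ s) ^ 2) * h1 +
        (-(C * D ^ 2 * 2 ^ s * ((2 : ℚ) ^ (2 * w) * r ^ 4 * η * κ * ω)) +
          σ * C * D ^ 2 * κ ^ 2 * r ^ 4 * ω ^ 2) * h5 +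
        (-(σ ^ 2 * C * D ^ 2 * 2 ^ s * ((2 : ℚ) ^ (2 * w) * r ^ 4 * η * κ * ω)) +
          σ * C * D ^ 2 * (κ ^ 2 * r ^ 4 * ω ^ 2 * σ ^ 2 * ((2 : ℚ) ^ v * 2 ^ s + 1) +
            a * σ * 2 ^ s * κ * r ^ 2 * ω)) * hvs
    have hnn : 0 ≤ 2 * w + s := by
      apply nonneg_of_odd (m := (κ : ℤ) * r ^ 4 * M * N * D) (k := σ * C * (κ ^ 2 * r ^ 4 * N ^ 2
        + a * σ * 2 ^ s * κ * r ^ 2 * N * D + b * 4 ^ s * D ^ 2)) hodd
      push_cast
      exact hR0
    obtain ⟨e, he⟩ := Int.eq_ofNat_of_zero_le hnn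
    have hRz : (2 : ℤ) ^ e * ((κ : ℤ) * r ^ 4 * M * N * D) =
        σ * C * (κ ^ 2 * r ^ 4 * N ^ 2 + a * σ * 2 ^ s * κ * r ^ 2 * N * D + b * 4 ^ s * D ^ 2) := by
      have h1 : (2 : ℚ) ^ (2 * w + s) = (2 : ℚ) ^ e := by rw [he]; exact zpow_natCast 2 e
      rw [h1] at hR0
      exact_mod_cast hR0
    have hZ : (((σ * 2 ^ e * κ * r ^ 4 - (κ ^ 2 * r ^ 4 + a * σ * 2 ^ s * κ * r ^ 2 + b * 4 ^ s) : ℤ)) :
        ZMod (2 ^ i)) = 0 := by
      have h1 := congrArg (fun z : ℤ => (z : ZMod (2 ^ i))) hRz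
      push_cast at h1
      rw [hN, hM, hC, hD] at h1
      have h6 : (σ : ZMod (2 ^ i)) * σ = 1 := by exact_mod_cast congrArg (fun z : ℤ => (z : ZMod (2 ^ i))) hσ2z
      push_cast
      linear_combination (σ : ZMod (2 ^ i)) * h1 + (κ ^ 2 * r ^ 4 + a * σ * 2 ^ s * κ * r ^ 2 + b * 4 ^ s) * h6
    obtain ⟨hκ1, hσ1, he0⟩ := hJ2 i hi2 κ (by exact_mod_cast hκpos) hκdvd (by omega) σ hσ s e hspos
      (cast_of_dvd hZ)
    have hκ1' : κ = 1 := by exact_mod_cast hκ1
    have hxpos : 0 < x := by rw [hσ1] at hσx; simpa using hσx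
    have hvals : ∀ p : ℕ, p.Prime → p ≠ 2 → p ≠ r →
        padicValRat p x = 2 * padicValRat p g ∨ padicValRat p x = -(2 * padicValRat p g) ∨
          padicValRat p x = 0 := by
      intro p hp hp2 _
      have := Fact.mk hp
      have h7 := val_sub_kap (a := a) hp2 hx hg hb heq
      rw [← hκdef, hκ1'] at h7
      simpa using h7
    obtain ⟨h, hh⟩ := ratIsSquare hxpos (by
      intro p hp
      by_cases hp2 : p = 2
      · subst hp2
        rw [← hv]
        exact ⟨w, by omega⟩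
      · by_cases hpr : p = r
        · subst hpr; rw [hvx]; exact even_two_mul _
        · rcases hvals p hp hp2 hpr with h7 | h7 | h7 <;> rw [h7]
          · exact even_two_mul _
          · exact (even_two_mul _).neg
          · exact Even.zero)
    have hvh : ∀ p : ℕ, p.Prime → 2 * padicValRat p h = padicValRat p x := by
      intro p hp
      have := Fact.mk hp
      rw [hh, padicValRat.pow]; norm_num
    refine ⟨h, hh, ?_, ?_⟩
    · intro p hp hp2 hpr
      have h8 := hvh p hp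
      have h9 := hgd p hp hp2 hpr
      rcases hvals p hp hp2 hpr with h7 | h7 | h7
      · have : padicValRat p h = padicValRat p g := by omega
        rw [this]; exact h9
      · have : padicValRat p h = -padicValRat p g := by omega
        rw [this, Int.natAbs_neg]; exact h9
      · have : padicValRat p h = 0 := by omega
        rw [this]; simp
    · have h8 := hvh r hr
      omega

end Pool.Agent.Helper13.Lang
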