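import Mathlib

/-!
Valuations of norms from cyclotomic fields.
-/

namespace Pool.Agent.Helper13.Lang

open NumberField Ideal

variable (m : ℕ) [NeZero m] (K : Type*) [Field K] [NumberField K]
  [IsCyclotomicExtension {m} ℚ K] (l : ℕ) [hl : Fact l.Prime]

include m in
theorem dvd_val_absNorm_prime (hlm : ¬ l ∣ m) (P : Ideal (𝓞 K)) (hP : P ≠ ⊥) (hPp : P.IsPrime) :
    orderOf (l : ZMod m) ∣ padicValNat l (absNorm P) := by
  have hN0 : absNorm P ≠ 0 := by
    rw [Ne, Ideal.absNorm_eq_zero_iff]; exact hP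
  have hmem : ((absNorm P : ℕ) : ℤ) ∈ P.under ℤ := by
    rw [Ideal.mem_comap]
    have := Ideal.absNorm_mem P
    simpa using this
  have hne : P.under ℤ ≠ ⊥ := by
    intro h
    rw [h, Ideal.mem_bot] at hmem
    exact hN0 (by exact_mod_cast hmem)
  have hprime : (P.under ℤ).IsPrime := inferInstance
  obtain ⟨g, hg⟩ := (IsPrincipalIdealRing.principal (P.under ℤ))
  have hg' : P.under ℤ = span {g} := hg
  have hg0 : g ≠ 0 := by
    rintro rfl
    apply hne
    rw [hg']; simp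
  have hgp : Prime g := by
    rw [hg', span_singleton_prime hg0] at hprime
    exact hprime
  have hpp : g.natAbs.Prime := Int.prime_iff_natAbs_prime.mp hgp
  have hspan : P.under ℤ = span {((g.natAbs : ℕ) : ℤ)} := by
    rw [hg', span_singleton_eq_span_singleton]
    exact Int.associated_natAbs g
  have := Fact.mk hpp
  have hlies : P.LiesOver (span {((g.natAbs : ℕ) : ℤ)}) := ⟨hspan.symm⟩
  have hpow := pow_inertiaDeg g.natAbs P
  by_cases hlg : l = g.natAbs
  · rw [← hpow, ← hlg, padicValNat.prime_pow]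
    have hlies' : P.LiesOver (span {((l : ℕ) : ℤ)}) := by rw [hlg]; exact hlies
    rw [IsCyclotomicExtension.Rat.inertiaDeg_eq_of_not_dvd l K P (m := m) hlm]
  · rw [← hpow, padicValNat.pow, padicValNat.eq_zero_of_not_dvd, mul_zero]
    · exact dvd_zero _
    · intro h
      exact hlg ((Nat.prime_dvd_prime_iff_eq hl.out hpp).mp h)

include m in
theorem dvd_val_absNorm (hlm : ¬ l ∣ m) (I : Ideal (𝓞 K)) (hI : I ≠ ⊥) :
    orderOf (l : ZMod m) ∣ padicValNat l (absNorm I) := by
  induction I using UniqueFactorizationMonoid.induction_on_prime with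
  | h₁ => exact absurd rfl hI
  | h₂ I hu =>
    rw [Ideal.isUnit_iff] at hu
    rw [hu]
    simp
  | h₃ I P hI0 hP ih =>
    have hP0 : P ≠ ⊥ := hP.ne_zero
    rw [map_mul, padicValNat.mul]
    · exact dvd_add (dvd_val_absNorm_prime m K l hlm P hP0 (Ideal.isPrime_of_prime hP)) (ih hI0)
    · rw [Ne, Ideal.absNorm_eq_zero_iff]; exact hP0
    · rw [Ne, Ideal.absNorm_eq_zero_iff]; exact hI0

include m in
theorem dvd_val_norm_int (hlm : ¬ l ∣ m) (x : 𝓞 K) (hx : x ≠ 0) :
    ((orderOf (l : ZMod m) : ℕ) : ℤ) ∣ padicValRat l (Algebra.norm ℚ (x : K)) := by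
  have h1 := dvd_val_absNorm m K l hlm (span {x}) (by simpa using hx)
  rw [Ideal.absNorm_span_singleton] at h1
  rw [← Algebra.coe_norm_int, padicValRat.of_int]
  exact_mod_cast h1

include m in
theorem dvd_val_norm (hlm : ¬ l ∣ m) (z : K) (hz : z ≠ 0) :
    ((orderOf (l : ZMod m) : ℕ) : ℤ) ∣ padicValRat l (Algebra.norm ℚ z) := by
  obtain ⟨x, y, hy, rfl⟩ := IsFractionRing.div_surjective (A := 𝓞 K) z
  have hy0 : y ≠ 0 := nonZeroDivisors.ne_zero hy
  have hx0 : x ≠ 0 := by
    rintro rfl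
    simp at hz
  have hNx : Algebra.norm ℚ (algebraMap (𝓞 K) K x) ≠ 0 := by
    rw [Algebra.norm_ne_zero_iff]
    simpa using hx0
  have hNy : Algebra.norm ℚ (algebraMap (𝓞 K) K y) ≠ 0 := by
    rw [Algebra.norm_ne_zero_iff]
    simpa using hy0
  have hy' : algebraMap (𝓞 K) K y ≠ 0 := by simpa using hy0
  have hN : Algebra.norm ℚ (algebraMap (𝓞 K) K x / algebraMap (𝓞 K) K y) *
      Algebra.norm ℚ (algebraMap (𝓞 K) K y) = Algebra.norm ℚ (algebraMap (𝓞 K) K x) := by
    rw [← map_mul, div_mul_cancel₀ _ hy']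
  have hNz : Algebra.norm ℚ (algebraMap (𝓞 K) K x / algebraMap (𝓞 K) K y) ≠ 0 := by
    rw [Algebra.norm_ne_zero_iff]
    exact hz
  have hval := congrArg (padicValRat l) hN
  rw [padicValRat.mul hNz hNy] at hval
  rw [eq_sub_of_add_eq hval]
  exact dvd_sub (dvd_val_norm_int m K l hlm x hx0) (dvd_val_norm_int m K l hlm y hy0)

end Pool.Agent.Helper13.Lang
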