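import Pool.Agent.Helper13.Lang.Descent
import Pool.Agent.Helper13.Lang.Norm

/-!
No rational point of `y² = x (x² + a x + b)`, `y ≠ 0`, has `(y / (r x)) ^ m` a norm from the field of
`2 ^ j`-th roots of unity.
-/

namespace Pool.Agent.Helper13.Lang

theorem pow_eq_one_iff_dvd {i l n : ℕ} (hl : 0 < l) :
    (l : ZMod (2 ^ i)) ^ n = 1 ↔ 2 ^ i ∣ l ^ n - 1 := by
  rw [← ZMod.natCast_eq_zero_iff, Nat.cast_sub (Nat.one_le_pow _ _ hl)]
  push_cast
  rw [sub_eq_zero]

theorem lte {l : ℕ} (hl : l.Prime) (hl2 : l ≠ 2) {j m n : ℕ} (hm : 0 < m)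
    (h : (l : ZMod (2 ^ j)) ^ (m * n) = 1) :
    (l : ZMod (2 ^ (j - padicValNat 2 m))) ^ (2 * n) = 1 := by
  have := Fact.mk Nat.prime_two
  rw [pow_eq_one_iff_dvd hl.pos]
  rcases Nat.eq_zero_or_pos n with hn | hn
  · subst hn; simp
  set u := l ^ n with hu
  have hu1 : 1 < u := Nat.one_lt_pow hn.ne' hl.one_lt
  have huodd : u % 2 = 1 := by
    have h1 : Odd l := hl.odd_of_ne_two hl2
    exact Nat.odd_iff.mp h1.pow
  have h1 : (l : ZMod (2 ^ j)) ^ (n * (2 * m)) = 1 := by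
    have : n * (2 * m) = (m * n) * 2 := by ring
    rw [this, pow_mul, h, one_pow]
  rw [pow_eq_one_iff_dvd hl.pos, pow_mul, ← hu] at h1
  have h2 := padicValNat.pow_two_sub_pow (x := u) (y := 1) hu1 (by omega) (by omega)
    (n := 2 * m) (by omega) (even_two_mul m)
  rw [one_pow, padicValNat.mul two_ne_zero hm.ne', padicValNat_self] at h2
  have h3 : padicValNat 2 (u ^ 2 - 1) = padicValNat 2 (u + 1) + padicValNat 2 (u - 1) := by
    have : u ^ 2 - 1 = (u + 1) * (u - 1) := by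
      have := Nat.sq_sub_sq u 1
      simpa using this
    rw [this, padicValNat.mul (by omega) (by omega)]
  have hne : u ^ (2 * m) - 1 ≠ 0 := by
    have : 1 < u ^ (2 * m) := Nat.one_lt_pow (by omega) hu1
    omega
  have hne2 : u ^ 2 - 1 ≠ 0 := by
    have : 1 < u ^ 2 := Nat.one_lt_pow (by omega) hu1
    omega
  have h4 : j ≤ padicValNat 2 (u ^ (2 * m) - 1) := (padicValNat_dvd_iff_le hne).mp h1
  have h5 : l ^ (2 * n) = u ^ 2 := by rw [hu, ← pow_mul, mul_comm]
  rw [h5, padicValNat_dvd_iff_le hne2]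
  omega

theorem pow_natAbs_eq_one {j l : ℕ} {z : ℤ} {m : ℕ} {v : ℤ}
    (h : ((orderOf (l : ZMod (2 ^ j)) : ℕ) : ℤ) ∣ z) (hz : z = m * v) :
    (l : ZMod (2 ^ j)) ^ (m * v.natAbs) = 1 := by
  rw [← orderOf_dvd_iff_pow_eq_one]
  have h1 := Int.natAbs_dvd_natAbs.mpr h
  rw [hz, Int.natAbs_mul] at h1
  simpa using h1

theorem not_pos_of_legendre {a b : ℤ} {r : ℕ} [hr : Fact r.Prime] (hb : b ≠ 0)
    (hrb : ¬ (r : ℤ) ∣ b) (hleg : legendreSym r (a ^ 2 - 4 * b) = -1) {x g : ℚ} (hx : x ≠ 0)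
    (hg : g ≠ 0) (h : g ^ 2 * x = x ^ 2 + a * x + b) : ¬ 0 < padicValRat r g := by
  intro hpos
  have hvb : padicValRat r (b : ℚ) = 0 := by
    rw [padicValRat.of_int, padicValInt.eq_zero_of_not_dvd hrb]; rfl
  have h1 : ¬ padicValRat r x < 0 := by
    intro hneg
    have := val_neg hx hg h hneg
    omega
  have h2 : ¬ 0 < padicValRat r x := by
    intro hp
    have := val_big hx hg hb h (by rw [hvb]; exact hp)
    rw [hvb] at this
    omega
  have hvx : padicValRat r x = 0 := by omega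
  have hden : padicValNat r x.den = 0 := val_nonneg_num hvx.ge
  have hrd : ¬ r ∣ x.den := by
    intro hd
    have := one_le_padicValNat_of_dvd x.den_ne_zero hd
    omega
  set m := x.num
  set n := x.den
  have hn0 : (n : ℚ) ≠ 0 := by exact_mod_cast x.den_ne_zero
  have hT : g ^ 2 * x * n ^ 2 = ((m ^ 2 + a * m * n + b * n ^ 2 : ℤ) : ℚ) := by
    have h3 : x * n = m := Rat.mul_den_eq_num x
    rw [h]
    push_cast
    rw [← h3]
    ring
  have hvn : padicValRat r (n : ℚ) = 0 := by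
    rw [padicValRat.of_nat, padicValNat.eq_zero_of_not_dvd hrd]; rfl
  have hvT : 0 < padicValRat r ((m ^ 2 + a * m * n + b * n ^ 2 : ℤ) : ℚ) := by
    rw [← hT, padicValRat.mul (mul_ne_zero (pow_ne_zero 2 hg) hx) (pow_ne_zero 2 hn0),
      padicValRat.mul (pow_ne_zero 2 hg) hx, padicValRat.pow, padicValRat.pow, hvx, hvn]
    push_cast
    linarith
  rw [padicValRat.of_int] at hvT
  have hdvd : (r : ℤ) ∣ m ^ 2 + a * m * n + b * n ^ 2 := by
    by_contra hcon
    rw [padicValInt.eq_zero_of_not_dvd hcon] at hvT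
    simp at hvT
  rw [legendreSym.eq_neg_one_iff] at hleg
  apply hleg
  have h4 : ((m ^ 2 + a * m * n + b * n ^ 2 : ℤ) : ZMod r) = 0 :=
    (ZMod.intCast_zmod_eq_zero_iff_dvd _ _).mpr hdvd
  have hn' : (n : ZMod r) ≠ 0 := by
    rw [Ne, ZMod.natCast_eq_zero_iff]; exact hrd
  refine ⟨(2 * m + a * n) / n, ?_⟩
  push_cast at h4 ⊢
  field_simp
  linear_combination (-4) * h4

theorem isSquare_zmod_two : ∀ t : ZMod 2, IsSquare t := by decide

theorem no_point (a b : ℤ) (hb : b ≠ 0) (r : ℕ) [hr : Fact r.Prime] (hrb : ¬ (r : ℤ) ∣ b)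
    (hleg : legendreSym r (a ^ 2 - 4 * b) = -1) (m : ℕ) (hm : 0 < m) :
    ∃ J : ℕ, ∀ j ≥ J, ∀ (K : Type) [Field K] [NumberField K] [IsCyclotomicExtension {2 ^ j} ℚ K]
      (x y : ℚ) (z : K), y ≠ 0 → y ^ 2 = x ^ 3 + a * x ^ 2 + b * x →
        y ^ m = (r * x) ^ m * Algebra.norm ℚ z → False := by
  have hns := (legendreSym.eq_neg_one_iff r).mp hleg
  have hr2 : r ≠ 2 := by
    rintro rfl
    exact hns (isSquare_zmod_two _)
  have hrb' : ¬ (r : ℤ) ∣ a ^ 2 - 4 * b := by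
    intro h
    apply hns
    rw [(ZMod.intCast_zmod_eq_zero_iff_dvd _ _).mpr h]
    exact ⟨0, by simp⟩
  have hb' : a ^ 2 - 4 * b ≠ 0 := by
    intro h; apply hrb'; rw [h]; exact dvd_zero _
  obtain ⟨J, hJ⟩ := no_anch a b hb hb' r hr.out hr2 hrb hrb'
  obtain ⟨J', hJ'⟩ := exists_two_pow_gt (r ^ 2)
  refine ⟨padicValNat 2 m + max J J' + 1, fun j hj K _ _ _ x y z hy hE hN => ?_⟩
  set i := j - padicValNat 2 m with hi
  have hiJ : J ≤ i := by have := le_max_left J J'; omega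
  have hiJ' : J' ≤ i := by have := le_max_right J J'; omega
  have hx : x ≠ 0 := by
    rintro rfl
    simp at hE
    exact hy hE
  set g := y / x with hgdef
  have hg : g ≠ 0 := div_ne_zero hy hx
  have hyg : y = g * x := by rw [hgdef]; field_simp
  have heq : g ^ 2 * x = x ^ 2 + a * x + b := by
    rw [hyg] at hE
    have : x * (g ^ 2 * x) = x * (x ^ 2 + a * x + b) := by linear_combination hE
    exact mul_left_cancel₀ hx this
  have hr0 : (r : ℚ) ≠ 0 := by exact_mod_cast hr.out.ne_zero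
  have hNz : g ^ m = (r : ℚ) ^ m * Algebra.norm ℚ z := by
    have h1 : x ^ m * g ^ m = x ^ m * ((r : ℚ) ^ m * Algebra.norm ℚ z) := by
      rw [← mul_pow, mul_comm x g, ← hyg, hN]; ring
    exact mul_left_cancel₀ (pow_ne_zero m hx) h1
  have hN0 : Algebra.norm ℚ z ≠ 0 := by
    intro h0
    rw [h0, mul_zero] at hNz
    exact pow_ne_zero m hg hNz
  have hz0 : z ≠ 0 := by
    rintro rfl
    apply hN0
    rw [Algebra.norm_zero]
  have valr : ∀ l : ℕ, l.Prime → l ≠ r → padicValRat l (r : ℚ) = 0 := by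
    intro l hl hlr
    have := Fact.mk hl
    rw [padicValRat.of_nat, padicValNat.eq_zero_of_not_dvd
      (fun h => hlr ((Nat.prime_dvd_prime_iff_eq hl hr.out).mp h))]
    rfl
  have hval : ∀ l : ℕ, l.Prime → padicValRat l (Algebra.norm ℚ z) =
      m * (padicValRat l g - padicValRat l (r : ℚ)) := by
    intro l hl
    have := Fact.mk hl
    have h1 := congrArg (padicValRat l) hNz
    rw [padicValRat.mul (pow_ne_zero m hr0) hN0, padicValRat.pow, padicValRat.pow] at h1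
    linear_combination -h1
  have hl2j : ∀ l : ℕ, l.Prime → l ≠ 2 → ¬ l ∣ 2 ^ j := by
    intro l hl hl2 h
    exact hl2 ((Nat.prime_dvd_prime_iff_eq hl Nat.prime_two).mp (hl.dvd_of_dvd_pow h))
  have hgd : Gd i r g := by
    intro l hl hl2 hlr
    have := Fact.mk hl
    apply lte hl hl2 hm
    apply pow_natAbs_eq_one (dvd_val_norm (2 ^ j) K l (hl2j l hl hl2) z hz0)
    rw [hval l hl, valr l hl hlr, sub_zero]
  have hgr : (r : ZMod (2 ^ i)) ^ (2 * (padicValRat r g - 1).natAbs) = 1 := by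
    apply lte hr.out hr2 hm
    apply pow_natAbs_eq_one (dvd_val_norm (2 ^ j) K r (hl2j r hr.out hr2) z hz0)
    rw [hval r hr.out, padicValRat.self hr.out.one_lt]
  have hnp := not_pos_of_legendre hb hrb hleg hx hg heq
  have hn0 : padicValRat r g ≠ 0 := by
    intro h0
    rw [h0, pow_eq_one_iff_dvd hr.out.pos] at hgr
    have h1 : (2 * ((0 : ℤ) - 1).natAbs) = 2 := rfl
    rw [h1] at hgr
    have h2 : 1 < r ^ 2 := Nat.one_lt_pow (by norm_num) hr.out.one_lt
    have h3 := Nat.le_of_dvd (by omega) hgr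
    have h4 : r ^ 2 < 2 ^ J' := by exact_mod_cast hJ'
    have h5 : 2 ^ J' ≤ 2 ^ i := Nat.pow_le_pow_right (by norm_num) hiJ'
    omega
  have hneg : padicValRat r g < 0 := by omega
  have hbq : (b : ℚ) ≠ 0 := by exact_mod_cast hb
  rcases neg_or hb hrb hx hg heq hneg with hn | hn
  · exact hJ i hiJ x g ⟨hx, hg, heq, hgd, hgr, hn⟩
  · exact hJ i hiJ (b / x) g ⟨div_ne_zero hbq hx, hg, swap hx heq, hgd, hgr, hn⟩

end Pool.Agent.Helper13.Lang
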